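import Mathlib
import Pool.Graph.R_pool_sql_team_seeded_1acbe0a2.Results.MP_00e23e_nt.HybridMeanValue

/-! The Bombieri-Vinogradov theorem in mean square with the largest error. -/

set_option autoImplicit false
set_option maxHeartbeats 4000000

open Finset Filter

namespace Pool.Agent.H537.TP

open Pool.Agent.Results.MP_00e23e_nt.HybridMeanValue (E primesAP li above mean_square)

theorem E_congr (x : ℝ) {m c c' : ℕ} (h : c ≡ c' [MOD m]) : E x m c = E x m c' := by
  unfold E primesAP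
  have : (Icc 1 ⌊x⌋₊).filter (fun p => p.Prime ∧ p ≡ c [MOD m]) =
      (Icc 1 ⌊x⌋₊).filter (fun p => p.Prime ∧ p ≡ c' [MOD m]) := by
    apply filter_congr
    intro p _
    constructor
    · rintro ⟨h1, h2⟩
      exact ⟨h1, h2.trans h⟩
    · rintro ⟨h1, h2⟩
      exact ⟨h1, h2.trans h.symm⟩
  rw [this]

theorem exists_amax (x : ℝ) : ∃ a : ℕ → ℕ, (∀ m, 1 ≤ m → (a m).Coprime m) ∧
    ∀ m, 1 ≤ m → ∀ c : ℕ, c.Coprime m → |E x m c| ≤ |E x m (a m)| := by
  have h : ∀ m : ℕ, ∃ a : ℕ, 1 ≤ m → a.Coprime m ∧ ∀ c : ℕ, c.Coprime m → |E x m c| ≤ |E x m a| := by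
    intro m
    by_cases hm : 1 ≤ m
    · set S := (Icc 1 m).filter (fun c => c.Coprime m) with hS
      have hne : S.Nonempty := ⟨1, by
        rw [hS, mem_filter, mem_Icc]
        exact ⟨⟨le_rfl, hm⟩, Nat.coprime_one_left m⟩⟩
      obtain ⟨a, ha, hmax⟩ := exists_max_image S (fun c => |E x m c|) hne
      refine ⟨a, fun _ => ⟨(mem_filter.mp ha).2, fun c hc => ?_⟩⟩
      obtain ⟨c', hc', hcc⟩ : ∃ c' ∈ S, c ≡ c' [MOD m] := by
        by_cases h0 : c % m = 0
        · refine ⟨m, ?_, ?_⟩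
          · rw [hS, mem_filter, mem_Icc]
            refine ⟨⟨hm, le_rfl⟩, ?_⟩
            have hd : m ∣ c := Nat.dvd_of_mod_eq_zero h0
            have h1 : m ∣ Nat.gcd c m := Nat.dvd_gcd hd dvd_rfl
            rw [hc.gcd_eq_one] at h1
            have : m = 1 := Nat.dvd_one.mp h1
            rw [this]
            exact Nat.coprime_one_left 1
          · unfold Nat.ModEq
            rw [h0, Nat.mod_self]
        · refine ⟨c % m, ?_, (Nat.mod_modEq c m).symm⟩
          rw [hS, mem_filter, mem_Icc]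
          refine ⟨⟨by omega, (Nat.mod_lt c hm).le⟩, ?_⟩
          rw [Nat.coprime_iff_gcd_eq_one, ← Nat.gcd_rec, Nat.gcd_comm]
          exact hc
      rw [E_congr x hcc]
      exact hmax c' hc'
    · exact ⟨0, fun h => absurd h hm⟩
  choose a ha using h
  exact ⟨a, fun m hm => (ha m hm).1, fun m hm => (ha m hm).2⟩

/-- the class of the largest error -/
noncomputable def amax (x : ℝ) : ℕ → ℕ := Classical.choose (exists_amax x)

/-- the largest error -/
noncomputable def eM (x : ℝ) (m : ℕ) : ℝ := |E x m (amax x m)|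

theorem eM_nonneg (x : ℝ) (m : ℕ) : 0 ≤ eM x m := abs_nonneg _

theorem le_eM (x : ℝ) {m c : ℕ} (hm : 1 ≤ m) (hc : c.Coprime m) : |E x m c| ≤ eM x m :=
  (Classical.choose_spec (exists_amax x)).2 m hm c hc

theorem bv_max (A : ℕ) : ∃ (B : ℕ) (C : ℝ), 0 < C ∧ ∀ x : ℝ, 3 ≤ x → ∀ D : ℕ,
    (D : ℝ) ≤ Real.sqrt x / Real.log x ^ B →
    ∑ d ∈ Icc 1 D, (Nat.totient d : ℝ) * eM x d ^ 2 ≤ C * (x ^ 2 / Real.log x ^ A) := by
  obtain ⟨B, C, hC, h⟩ := mean_square A
  refine ⟨B, C, hC, fun x hx D hD => ?_⟩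
  have hlog : 0 < Real.log x := Real.log_pos (by linarith)
  have h1 : (D : ℝ) * ((1 : ℕ) : ℝ) ≤ x / Real.log x ^ B := by
    rw [Nat.cast_one, mul_one]
    refine hD.trans (div_le_div_of_nonneg_right ?_ (by positivity))
    rw [Real.sqrt_le_left (by linarith)]
    nlinarith
  refine le_trans ?_ (h x hx D 1 hD h1 (amax x) (fun d hd => (Classical.choose_spec (exists_amax x)).1 d hd))
  apply sum_le_sum
  intro d hd
  rw [mem_Icc] at hd
  apply mul_le_mul_of_nonneg_left _ (Nat.cast_nonneg _)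
  have ha : (amax x d).Coprime d := (Classical.choose_spec (exists_amax x)).1 d hd.1
  -- the representative
  obtain ⟨c', hc', hcc⟩ : ∃ c' ∈ above d 1 (amax x d), amax x d ≡ c' [MOD d] := by
    by_cases h0 : amax x d % d = 0
    · refine ⟨d, ?_, ?_⟩
      · unfold above
        rw [mem_filter, mem_Icc, mul_one]
        have hdv : d ∣ amax x d := Nat.dvd_of_mod_eq_zero h0
        have h1 : d ∣ Nat.gcd (amax x d) d := Nat.dvd_gcd hdv dvd_rfl
        rw [ha.gcd_eq_one] at h1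
        have h2 : d = 1 := Nat.dvd_one.mp h1
        refine ⟨⟨hd.1, le_rfl⟩, ?_, ?_⟩
        · rw [h2]
          exact Nat.coprime_one_left 1
        · unfold Nat.ModEq
          rw [h0, Nat.mod_self]
      · unfold Nat.ModEq
        rw [h0, Nat.mod_self]
    · refine ⟨amax x d % d, ?_, (Nat.mod_modEq _ d).symm⟩
      unfold above
      rw [mem_filter, mem_Icc, mul_one]
      refine ⟨⟨by omega, (Nat.mod_lt _ hd.1).le⟩, ?_, Nat.mod_modEq _ d⟩
      rw [Nat.coprime_iff_gcd_eq_one, ← Nat.gcd_rec, Nat.gcd_comm]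
      exact ha
  have e1 : (Icc 1 1).filter (fun e => e.Coprime d) = {1} := by
    rw [Icc_self, filter_singleton, if_pos (Nat.coprime_one_left d)]
  rw [e1, sum_singleton, mul_one]
  have e2 : eM x d ^ 2 = E x d c' ^ 2 := by
    unfold eM
    rw [sq_abs, E_congr x hcc]
  rw [e2]
  exact single_le_sum (f := fun c => E x d c ^ 2) (fun _ _ => sq_nonneg _) hc'

theorem cont_log {a b : ℝ} (ha : 2 ≤ a) (hb : 2 ≤ b) :
    IntervalIntegrable (fun t : ℝ => 1 / Real.log t) MeasureTheory.volume a b := by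
  apply ContinuousOn.intervalIntegrable
  apply ContinuousOn.div continuousOn_const
  · apply Real.continuousOn_log.mono
    intro t ht
    have h1 : min a b ≤ t := (Set.mem_uIcc.mp ht).elim (fun h => (min_le_left _ _).trans h.1) (fun h => (min_le_right _ _).trans h.1)
    have h2 : 2 ≤ min a b := le_min ha hb
    simp only [Set.mem_compl_iff, Set.mem_singleton_iff]
    intro h0
    linarith
  · intro t ht
    have h1 : min a b ≤ t := (Set.mem_uIcc.mp ht).elim (fun h => (min_le_left _ _).trans h.1) (fun h => (min_le_right _ _).trans h.1)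
    have h2 : 2 ≤ min a b := le_min ha hb
    exact (Real.log_pos (by linarith)).ne'

theorem li_sub {a b : ℝ} (ha : 2 ≤ a) (hb : 2 ≤ b) : li b - li a = ∫ t in a..b, 1 / Real.log t := by
  unfold li
  rw [intervalIntegral.integral_interval_sub_left (cont_log le_rfl hb) (cont_log le_rfl ha)]

theorem li_sub_le {a b : ℝ} (ha : 2 ≤ a) (hab : a ≤ b) : li b - li a ≤ (b - a) / Real.log a := by
  rw [li_sub ha (ha.trans hab)]
  have hla : 0 < Real.log a := Real.log_pos (by linarith)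
  calc ∫ t in a..b, 1 / Real.log t ≤ ∫ _t in a..b, 1 / Real.log a := by
        apply intervalIntegral.integral_mono_on hab (cont_log ha (ha.trans hab)) (by simp)
        intro t ht
        apply one_div_le_one_div_of_le hla
        exact Real.log_le_log (by linarith) ht.1
    _ = (b - a) / Real.log a := by
        rw [intervalIntegral.integral_const, smul_eq_mul]
        ring

theorem le_li_sub {a b : ℝ} (ha : 2 ≤ a) (hab : a ≤ b) : (b - a) / Real.log b ≤ li b - li a := by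
  rw [li_sub ha (ha.trans hab)]
  calc (b - a) / Real.log b = ∫ _t in a..b, 1 / Real.log b := by
        rw [intervalIntegral.integral_const, smul_eq_mul]
        ring
    _ ≤ ∫ t in a..b, 1 / Real.log t := by
        apply intervalIntegral.integral_mono_on hab (by simp) (cont_log ha (ha.trans hab))
        intro t ht
        apply one_div_le_one_div_of_le (Real.log_pos (by linarith [ht.1]))
        exact Real.log_le_log (by linarith [ht.1]) ht.2

theorem li_two : li 2 = 0 := by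
  unfold li
  exact intervalIntegral.integral_same

theorem li_nonneg {x : ℝ} (hx : 2 ≤ x) : 0 ≤ li x := by
  have h := le_li_sub le_rfl hx
  rw [li_two, sub_zero] at h
  have : 0 ≤ (x - 2) / Real.log x := div_nonneg (by linarith) (Real.log_nonneg (by linarith))
  linarith

theorem li_le {x : ℝ} (hx : 2 ≤ x) : li x ≤ 2 * x := by
  have h := li_sub_le le_rfl hx
  rw [li_two, sub_zero] at h
  have h2 := Real.log_two_gt_d9
  have h3 : (x - 2) / Real.log 2 ≤ 2 * x := by
    rw [div_le_iff₀ (by linarith)]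
    nlinarith
  linarith

theorem E_triv {x : ℝ} (hx : 2 ≤ x) {m : ℕ} (hm : 1 ≤ m) (c : ℕ) : |E x m c| ≤ 3 * x := by
  unfold E
  have h1 : (primesAP x m c : ℝ) ≤ x := by
    unfold primesAP
    have : ((Icc 1 ⌊x⌋₊).filter (fun p => p.Prime ∧ p ≡ c [MOD m])).card ≤ ⌊x⌋₊ := by
      refine (card_filter_le _ _).trans ?_
      rw [Nat.card_Icc, Nat.add_sub_cancel]
    exact (Nat.cast_le.mpr this).trans (Nat.floor_le (by linarith))
  have h0 : (0 : ℝ) ≤ primesAP x m c := Nat.cast_nonneg _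
  have hφ : (1 : ℝ) ≤ m.totient := by exact_mod_cast Nat.totient_pos.mpr hm
  have h2 : li x / (m.totient : ℝ) ≤ 2 * x := (div_le_self (li_nonneg hx) hφ).trans (li_le hx)
  have h3 : 0 ≤ li x / (m.totient : ℝ) := div_nonneg (li_nonneg hx) (by linarith)
  rw [abs_le]
  constructor <;> linarith

/-- uniformly in `x` -/
theorem bv_unif (A : ℕ) (Cx : ℝ) (hCx : 1 ≤ Cx) : ∃ C : ℝ, 0 < C ∧ ∀ᶠ N : ℕ in atTop, ∀ x : ℝ, 2 ≤ x → x ≤ Cx * N →
    ∀ D : ℕ, (D : ℝ) ≤ (N : ℝ) ^ ((1 : ℝ) / 8) →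
    ∑ d ∈ Icc 1 D, (Nat.totient d : ℝ) * eM x d ^ 2 ≤ C * ((N : ℝ) ^ 2 / Real.log N ^ A) := by
  obtain ⟨B, C, hC, h⟩ := bv_max A
  refine ⟨C * Cx ^ 2 * 2 ^ A + 9, by positivity, ?_⟩
  have hcast : Tendsto (fun N : ℕ => (N : ℝ)) atTop atTop := tendsto_natCast_atTop_atTop
  have hlogN : Tendsto (fun N : ℕ => Real.log (N : ℝ)) atTop atTop :=
    Real.tendsto_log_atTop.comp hcast
  -- powers of the logarithm are small
  have hs1 : ∀ᶠ N : ℕ in atTop, (2 * Real.log N) ^ B ≤ (N : ℝ) ^ ((1 : ℝ) / 8) := by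
    have h1 : (fun x : ℝ => (2 * Real.log x) ^ B) =o[atTop] fun x : ℝ => x ^ ((1 : ℝ) / 8) := by
      have h2 := isLittleO_log_rpow_rpow_atTop (B : ℝ) (show (0 : ℝ) < 1 / 8 by norm_num)
      have h3 := h2.const_mul_left ((2 : ℝ) ^ B)
      refine h3.congr' ?_ (EventuallyEq.refl _ _)
      filter_upwards with x
      rw [Real.rpow_natCast, mul_pow]
    have h4 := h1.bound one_pos
    filter_upwards [hcast.eventually h4, hcast.eventually_ge_atTop 1] with N hN hN1
    rw [Real.norm_of_nonneg (by positivity), one_mul] at hN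
    have h5 : 0 ≤ 2 * Real.log (N : ℝ) := by
      have := Real.log_nonneg hN1
      linarith
    rwa [Real.norm_of_nonneg (by positivity)] at hN
  have hs2 : ∀ᶠ N : ℕ in atTop, Real.log N ^ A ≤ (N : ℝ) ^ ((1 : ℝ) / 2) := by
    have h2 := isLittleO_log_rpow_rpow_atTop (A : ℝ) (show (0 : ℝ) < 1 / 2 by norm_num)
    have h4 := h2.bound one_pos
    filter_upwards [hcast.eventually h4, hcast.eventually_ge_atTop 1] with N hN hN1
    rw [Real.rpow_natCast, Real.norm_of_nonneg (by positivity), one_mul] at hN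
    have h5 : 0 ≤ Real.log (N : ℝ) := Real.log_nonneg hN1
    rwa [Real.norm_of_nonneg (by positivity)] at hN
  filter_upwards [hs1, hs2, hcast.eventually_ge_atTop Cx, hcast.eventually_ge_atTop 9, hlogN.eventually_ge_atTop 1]
    with N h1 h2 h3 h4 h5
  intro x hx2 hxN D hD
  have hN0 : (0 : ℝ) < N := by linarith
  have hN1 : (1 : ℝ) ≤ N := by linarith
  have hrhs : 0 ≤ (N : ℝ) ^ 2 / Real.log N ^ A := by positivity
  by_cases hxs : Real.sqrt N ≤ x
  · have hsq3 : 3 ≤ Real.sqrt N := by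
      rw [Real.le_sqrt' (by norm_num)]
      linarith
    have hx3 : 3 ≤ x := hsq3.trans hxs
    have hlogx : Real.log N / 2 ≤ Real.log x := by
      have := Real.log_le_log (by linarith) hxs
      rwa [Real.log_sqrt hN0.le] at this
    have hlogx' : Real.log x ≤ 2 * Real.log N := by
      have e1 := Real.log_le_log (by linarith) hxN
      have e2 : Real.log (Cx * N) ≤ 2 * Real.log N := by
        rw [Real.log_mul (by linarith) hN0.ne']
        have := Real.log_le_log (by linarith) h3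
        linarith
      linarith
    have hlx0 : 0 < Real.log x := Real.log_pos (by linarith)
    have hD' : (D : ℝ) ≤ Real.sqrt x / Real.log x ^ B := by
      rw [le_div_iff₀ (by positivity)]
      have e1 : Real.log x ^ B ≤ (N : ℝ) ^ ((1 : ℝ) / 8) := (pow_le_pow_left₀ hlx0.le hlogx' B).trans h1
      have e2 : (N : ℝ) ^ ((1 : ℝ) / 8) * (N : ℝ) ^ ((1 : ℝ) / 8) = (N : ℝ) ^ ((1 : ℝ) / 4) := by
        rw [← Real.rpow_add hN0]
        norm_num
      have e3 : (N : ℝ) ^ ((1 : ℝ) / 4) ≤ Real.sqrt x := by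
        have e4 : (N : ℝ) ^ ((1 : ℝ) / 4) = Real.sqrt (Real.sqrt N) := by
          rw [Real.sqrt_eq_rpow, Real.sqrt_eq_rpow, ← Real.rpow_mul hN0.le]
          congr 1
          norm_num
        rw [e4]
        exact Real.sqrt_le_sqrt hxs
      calc (D : ℝ) * Real.log x ^ B ≤ (N : ℝ) ^ ((1 : ℝ) / 8) * (N : ℝ) ^ ((1 : ℝ) / 8) :=
            mul_le_mul hD e1 (by positivity) (by positivity)
        _ ≤ _ := by rw [e2]; exact e3
    refine (h x hx3 D hD').trans ?_
    have e1 : x ^ 2 / Real.log x ^ A ≤ Cx ^ 2 * 2 ^ A * ((N : ℝ) ^ 2 / Real.log N ^ A) := by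
      rw [div_le_iff₀ (by positivity)]
      have e2 : x ^ 2 ≤ Cx ^ 2 * (N : ℝ) ^ 2 := by
        rw [← mul_pow]
        exact pow_le_pow_left₀ (by linarith) hxN 2
      have e3 : Real.log N ^ A ≤ 2 ^ A * Real.log x ^ A := by
        rw [← mul_pow]
        exact pow_le_pow_left₀ (by linarith) (by linarith) A
      have e4 : (0 : ℝ) < Real.log N ^ A := by positivity
      calc x ^ 2 ≤ Cx ^ 2 * (N : ℝ) ^ 2 := e2
        _ = Cx ^ 2 * ((N : ℝ) ^ 2 / Real.log N ^ A) * Real.log N ^ A := by field_simp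
        _ ≤ Cx ^ 2 * ((N : ℝ) ^ 2 / Real.log N ^ A) * (2 ^ A * Real.log x ^ A) :=
            mul_le_mul_of_nonneg_left e3 (by positivity)
        _ = _ := by ring
    calc C * (x ^ 2 / Real.log x ^ A) ≤ C * (Cx ^ 2 * 2 ^ A * ((N : ℝ) ^ 2 / Real.log N ^ A)) :=
          mul_le_mul_of_nonneg_left e1 hC.le
      _ ≤ _ := by nlinarith
  · push Not at hxs
    have hb : ∀ d ∈ Icc 1 D, (Nat.totient d : ℝ) * eM x d ^ 2 ≤ (N : ℝ) ^ ((1 : ℝ) / 8) * (9 * N) := by
      intro d hd
      rw [mem_Icc] at hd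
      have e1 : (Nat.totient d : ℝ) ≤ (N : ℝ) ^ ((1 : ℝ) / 8) := by
        refine le_trans ?_ hD
        exact_mod_cast (Nat.totient_le d).trans hd.2
      have e2 : eM x d ^ 2 ≤ 9 * N := by
        have e3 : eM x d ≤ 3 * Real.sqrt N := by
          have := E_triv hx2 hd.1 (amax x d)
          unfold eM
          linarith
        calc eM x d ^ 2 ≤ (3 * Real.sqrt N) ^ 2 := pow_le_pow_left₀ (eM_nonneg _ _) e3 2
          _ = 9 * N := by rw [mul_pow, Real.sq_sqrt hN0.le]; norm_num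
      exact mul_le_mul e1 e2 (by positivity) (by positivity)
    refine (sum_le_sum hb).trans ?_
    rw [sum_const, Nat.card_Icc, Nat.add_sub_cancel, nsmul_eq_mul]
    have e1 : (D : ℝ) * ((N : ℝ) ^ ((1 : ℝ) / 8) * (9 * N)) ≤ 9 * ((N : ℝ) ^ 2 / Real.log N ^ A) := by
      have e2 : (D : ℝ) * ((N : ℝ) ^ ((1 : ℝ) / 8) * (9 * N)) ≤ (N : ℝ) ^ ((1 : ℝ) / 8) * ((N : ℝ) ^ ((1 : ℝ) / 8) * (9 * N)) :=
        mul_le_mul_of_nonneg_right hD (by positivity)
      have e3 : (N : ℝ) ^ ((1 : ℝ) / 8) * (N : ℝ) ^ ((1 : ℝ) / 8) = (N : ℝ) ^ ((1 : ℝ) / 4) := by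
        rw [← Real.rpow_add hN0]
        norm_num
      have e4 : (N : ℝ) ^ ((1 : ℝ) / 4) ≤ (N : ℝ) ^ ((1 : ℝ) / 2) := Real.rpow_le_rpow_of_exponent_le hN1 (by norm_num)
      have e5 : (N : ℝ) ^ ((1 : ℝ) / 2) * (N : ℝ) ^ ((1 : ℝ) / 2) = N := by
        rw [← Real.rpow_add hN0]
        norm_num
      have e6 : (N : ℝ) ^ ((1 : ℝ) / 2) * N ≤ (N : ℝ) ^ 2 / Real.log N ^ A := by
        rw [le_div_iff₀ (by positivity)]
        calc (N : ℝ) ^ ((1 : ℝ) / 2) * N * Real.log N ^ A ≤ (N : ℝ) ^ ((1 : ℝ) / 2) * N * (N : ℝ) ^ ((1 : ℝ) / 2) :=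
              mul_le_mul_of_nonneg_left h2 (by positivity)
          _ = (N : ℝ) ^ ((1 : ℝ) / 2) * (N : ℝ) ^ ((1 : ℝ) / 2) * N := by ring
          _ = N ^ 2 := by rw [e5]; ring
      calc (D : ℝ) * ((N : ℝ) ^ ((1 : ℝ) / 8) * (9 * N)) ≤ _ := e2
        _ = 9 * ((N : ℝ) ^ ((1 : ℝ) / 8) * (N : ℝ) ^ ((1 : ℝ) / 8) * N) := by ring
        _ ≤ 9 * ((N : ℝ) ^ ((1 : ℝ) / 2) * N) := by
            rw [e3]
            apply mul_le_mul_of_nonneg_left _ (by norm_num)
            exact mul_le_mul_of_nonneg_right e4 hN0.le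
        _ ≤ _ := mul_le_mul_of_nonneg_left e6 (by norm_num)
    refine e1.trans ?_
    have : 0 ≤ C * Cx ^ 2 * 2 ^ A * ((N : ℝ) ^ 2 / Real.log N ^ A) := by positivity
    nlinarith

end Pool.Agent.H537.TP
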