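import Mathlib

/-! Counting in intersections of unions of reduced residue classes, for an arbitrary set. -/

set_option autoImplicit false
set_option maxHeartbeats 4000000

open Finset

namespace Pool.Agent.H537.TP

/-- joint distribution in reduced residue classes -/
theorem count_sysN (A : ℕ → ℕ → Prop) [∀ p a, Decidable (A p a)] (Nn : Finset ℕ) (T Err : ℝ) (S : Finset ℕ)
    (hS : ∀ p ∈ S, p.Prime) :
    ∀ q : ℕ, 1 ≤ q → (∀ p ∈ S, ¬ p ∣ q) → (∀ p ∈ S, ¬ A p 0) →
    (∀ c : ℕ, c.Coprime (q * ∏ p ∈ S, p) →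
      |((Nn.filter (fun n => n ≡ c [MOD (q * ∏ p ∈ S, p)])).card : ℝ) - T / (q * ∏ p ∈ S, p).totient| ≤ Err) →
    ∀ c : ℕ, c.Coprime q →
    |((Nn.filter (fun n => n ≡ c [MOD q] ∧ ∀ p ∈ S, A p (n % p))).card : ℝ) -
      T / q.totient * ∏ p ∈ S, ((((range p).filter (fun a => A p a)).card : ℝ) / (p - 1))| ≤
      (∏ p ∈ S, (((range p).filter (fun a => A p a)).card : ℝ)) * Err := by
  induction S using Finset.induction_on with
  | empty =>
    intro q hq _ _ hErr c hc
    have h := hErr c (by simpa using hc)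
    simpa using h
  | insert p S hp ih =>
    intro q hq hdq hA0 hErr c hc
    have hpp := hS p (mem_insert_self _ _)
    have hS' : ∀ p' ∈ S, p'.Prime := fun p' h => hS p' (mem_insert_of_mem h)
    have hpq : q.Coprime p := by
      rw [Nat.coprime_comm]
      exact (Nat.Prime.coprime_iff_not_dvd hpp).2 (hdq p (mem_insert_self _ _))
    have hp0 : (0 : ℝ) < p := by exact_mod_cast hpp.pos
    have hp1 : (0 : ℝ) < (p : ℝ) - 1 := by
      have : (1 : ℝ) < p := by exact_mod_cast hpp.one_lt
      linarith
    have hq0 : (0 : ℝ) < q := by exact_mod_cast hq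
    rw [prod_insert hp, prod_insert hp]
    rw [prod_insert hp] at hErr
    set ρ := (range p).filter (fun a => A p a) with hρ
    -- fibres
    have h1 : (Nn.filter (fun n => n ≡ c [MOD q] ∧ ∀ p' ∈ insert p S, A p' (n % p'))).card =
        ∑ a ∈ ρ, (Nn.filter (fun n => n ≡ (Nat.chineseRemainder hpq c a : ℕ) [MOD (q * p)] ∧
          ∀ p' ∈ S, A p' (n % p'))).card := by
      rw [card_eq_sum_card_fiberwise (f := fun n => n % p) (t := ρ)]
      · apply sum_congr rfl
        intro a ha
        rw [hρ, mem_filter, mem_range] at ha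
        congr 1
        ext n
        simp only [mem_filter, mem_insert, forall_eq_or_imp]
        have hcr : n ≡ (Nat.chineseRemainder hpq c a : ℕ) [MOD (q * p)] ↔ n ≡ c [MOD q] ∧ n ≡ a [MOD p] := by
          constructor
          · intro h
            have k1 := (Nat.chineseRemainder hpq c a).2.1
            have k2 := (Nat.chineseRemainder hpq c a).2.2
            exact ⟨(h.of_mul_right p).trans k1, (h.of_mul_left q).trans k2⟩
          · rintro ⟨h1, h2⟩
            exact Nat.chineseRemainder_modEq_unique hpq h1 h2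
        have hmod : n ≡ a [MOD p] ↔ n % p = a := by
          unfold Nat.ModEq
          rw [Nat.mod_eq_of_lt ha.1]
        rw [hcr, hmod]
        constructor
        · rintro ⟨⟨h1, h2, h3, h4⟩, h5⟩
          exact ⟨h1, ⟨h2, h5⟩, h4⟩
        · rintro ⟨h1, ⟨h2, h5⟩, h4⟩
          exact ⟨⟨h1, h2, by rw [h5]; exact ha.2, h4⟩, h5⟩
      · intro n hn
        simp only [coe_filter, mem_insert, forall_eq_or_imp, Set.mem_ofPred_eq] at hn
        rw [hρ]
        simp only [coe_filter, mem_range, Set.mem_ofPred_eq]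
        exact ⟨Nat.mod_lt _ hpp.pos, hn.2.2.1⟩
    rw [h1]
    push_cast
    have hφ : ((q * p).totient : ℝ) = q.totient * ((p : ℝ) - 1) := by
      rw [Nat.totient_mul hpq, Nat.totient_prime hpp]
      push_cast [hpp.one_lt.le]
      ring
    have hφ0 : (0 : ℝ) < q.totient := by exact_mod_cast Nat.totient_pos.mpr hq
    have h2 : T / q.totient * (((ρ.card : ℝ) / (p - 1)) * ∏ p' ∈ S, ((((range p').filter (fun a => A p' a)).card : ℝ) / (p' - 1))) =
        ∑ a ∈ ρ, T / ((q * p).totient : ℝ) * ∏ p' ∈ S, ((((range p').filter (fun a => A p' a)).card : ℝ) / (p' - 1)) := by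
      rw [sum_const, nsmul_eq_mul, hφ]
      rw [← div_div]
      ring
    rw [h2, ← sum_sub_distrib]
    refine (abs_sum_le_sum_abs _ _).trans ?_
    have h3 : ∀ a ∈ ρ, |((Nn.filter (fun n => n ≡ (Nat.chineseRemainder hpq c a : ℕ) [MOD (q * p)] ∧
          ∀ p' ∈ S, A p' (n % p'))).card : ℝ) -
        T / ((q * p).totient : ℝ) * ∏ p' ∈ S, ((((range p').filter (fun a => A p' a)).card : ℝ) / (p' - 1))| ≤
        (∏ p' ∈ S, (((range p').filter (fun a => A p' a)).card : ℝ)) * Err := by
      intro a ha
      rw [hρ, mem_filter, mem_range] at ha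
      apply ih hS' (q * p) (Nat.mul_pos hq hpp.pos)
      · intro p' hp' hd
        have hp'p := hS p' (mem_insert_of_mem hp')
        rcases (Nat.Prime.dvd_mul hp'p).1 hd with h | h
        · exact hdq p' (mem_insert_of_mem hp') h
        · rw [Nat.prime_dvd_prime_iff_eq hp'p hpp] at h
          exact hp (h ▸ hp')
      · intro p' hp'
        exact hA0 p' (mem_insert_of_mem hp')
      · intro c' hc'
        rw [mul_assoc] at hc' ⊢
        exact hErr c' hc'
      · have k1 := (Nat.chineseRemainder hpq c a).2.1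
        have k2 := (Nat.chineseRemainder hpq c a).2.2
        rw [Nat.coprime_mul_iff_right]
        constructor
        · rw [Nat.coprime_iff_gcd_eq_one, k1.gcd_eq]
          exact hc
        · rw [Nat.coprime_iff_gcd_eq_one, k2.gcd_eq, ← Nat.coprime_iff_gcd_eq_one, Nat.coprime_comm]
          rw [Nat.Prime.coprime_iff_not_dvd hpp]
          intro hd
          have h0 : a = 0 := Nat.eq_zero_of_dvd_of_lt hd ha.1
          exact hA0 p (mem_insert_self _ _) (h0 ▸ ha.2)
    refine (sum_le_sum h3).trans ?_
    rw [sum_const, nsmul_eq_mul, mul_assoc]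

end Pool.Agent.H537.TP
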