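import Pool.Agent.H537.TP.Fund
import Pool.Agent.H537.TR.Gen
import Pool.Agent.H537.TR.Shift

/-! Limits to the equidistribution of the primes `p` for which `G(p)` has no small prime factor. -/

set_option autoImplicit false
set_option maxHeartbeats 4000000

open Finset Polynomial Filter

namespace Pool.Agent.H537.TP

open Pool.Agent.H537.FG Pool.Agent.N914.MR Pool.Agent.H537.FT Pool.Agent.H537.GP Pool.Agent.H537.TR

/-- the number of the nonzero zeros modulo `p` -/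
def omP (G : ℤ[X]) (p : ℕ) : ℕ := ((range p).filter (fun n : ℕ => n ≠ 0 ∧ (p : ℤ) ∣ G.eval (n : ℤ))).card

/-- the forbidden classes -/
def VP (G : ℤ[X]) (z Y p n : ℕ) : Prop := p ∣ n + Y ∨ (p ≤ z ∧ (p : ℤ) ∣ G.eval ((n + Y : ℕ) : ℤ))

theorem VP_per (G : ℤ[X]) (z Y : ℕ) : ∀ p a b : ℕ, p.Prime → a ≡ b [MOD p] → (VP G z Y p a ↔ VP G z Y p b) := by
  intro p a b _ h
  have h1 : a + Y ≡ b + Y [MOD p] := Nat.ModEq.add_right Y h
  unfold VP
  rw [h1.dvd_iff dvd_rfl, dvd_congr G h1]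

theorem omV_VP (G : ℤ[X]) (z Y : ℕ) {p : ℕ} (hp : p.Prime) :
    omV (VP G z Y) p = if p ≤ z then omP G p + 1 else 1 := by
  classical
  unfold omV
  have h1 : ((range p).filter (fun n : ℕ => VP G z Y p n)).card =
      ((range p).filter (fun n : ℕ => p ∣ n ∨ (p ≤ z ∧ (p : ℤ) ∣ G.eval (n : ℤ)))).card := by
    have h3 := card_shift (fun n : ℕ => p ∣ n ∨ (p ≤ z ∧ (p : ℤ) ∣ G.eval (n : ℤ))) p Y (by
      intro n
      have h2 : n + p ≡ n [MOD p] := by
        unfold Nat.ModEq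
        simp
      simp only [h2.dvd_iff dvd_rfl, dvd_congr G h2])
    rw [← h3]
    apply congrArg card
    ext n
    rw [mem_filter, mem_filter]
    exact Iff.rfl
  have h0 : ∀ n ∈ range p, (p ∣ n ↔ n = 0) := by
    intro n hn
    constructor
    · intro hd
      exact Nat.eq_zero_of_dvd_of_lt hd (mem_range.mp hn)
    · intro h
      rw [h]
      exact dvd_zero _
  split_ifs with hz
  · refine Eq.trans ?_ (Eq.trans h1 ?_)
    · congr 1
    · have h3 : (range p).filter (fun n : ℕ => p ∣ n ∨ (p ≤ z ∧ (p : ℤ) ∣ G.eval (n : ℤ))) =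
          insert 0 ((range p).filter (fun n : ℕ => n ≠ 0 ∧ (p : ℤ) ∣ G.eval (n : ℤ))) := by
        ext n
        rw [mem_insert, mem_filter, mem_filter]
        constructor
        · rintro ⟨h4, h5⟩
          by_cases h6 : n = 0
          · exact Or.inl h6
          · rcases h5 with h5 | h5
            · exact absurd ((h0 n h4).mp h5) h6
            · exact Or.inr ⟨h4, h6, h5.2⟩
        · rintro (h4 | h4)
          · rw [h4]
            exact ⟨mem_range.mpr hp.pos, Or.inl (dvd_zero _)⟩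
          · exact ⟨h4.1, Or.inr ⟨hz, h4.2.2⟩⟩
      rw [h3, card_insert_of_notMem]
      · rfl
      · rw [mem_filter]
        rintro ⟨_, h4, _⟩
        exact h4 rfl
  · refine Eq.trans ?_ (Eq.trans h1 ?_)
    · congr 1
    · have h3 : (range p).filter (fun n : ℕ => p ∣ n ∨ (p ≤ z ∧ (p : ℤ) ∣ G.eval (n : ℤ))) = {0} := by
        ext n
        rw [mem_singleton, mem_filter]
        constructor
        · rintro ⟨h4, h5⟩
          rcases h5 with h5 | h5
          · exact (h0 n h4).mp h5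
          · exact absurd h5.1 hz
        · intro h4
          rw [h4]
          exact ⟨mem_range.mpr hp.pos, Or.inl (dvd_zero _)⟩
      rw [h3, card_singleton]

/-- at most the degree -/
theorem omP_le {G : ℤ[X]} {p : ℕ} (hp : p.Prime) (h : omP G p + 1 < p) : omP G p ≤ G.natDegree := by
  have h1 : omG G p ≤ omP G p + 1 := by
    unfold omG omP
    have : (range p).filter (fun n : ℕ => (p : ℤ) ∣ G.eval (n : ℤ)) ⊆
        insert 0 ((range p).filter (fun n : ℕ => n ≠ 0 ∧ (p : ℤ) ∣ G.eval (n : ℤ))) := by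
      intro n hn
      rw [mem_filter] at hn
      rw [mem_insert, mem_filter]
      by_cases h0 : n = 0
      · exact Or.inl h0
      · exact Or.inr ⟨hn.1, h0, hn.2⟩
    exact (card_le_card this).trans (card_insert_le _ _)
  have h2 : omP G p ≤ omG G p := by
    unfold omG omP
    apply card_le_card
    intro n hn
    rw [mem_filter] at hn ⊢
    exact ⟨hn.1, hn.2.2⟩
  exact h2.trans (omG_le hp (lt_of_le_of_lt h1 h))

/-- the constant -/
noncomputable def densP (G : ℤ[X]) (z : ℕ) : ℝ := ∏ p ∈ (Icc 1 z).filter Nat.Prime, (1 - (omP G p : ℝ) / ((p : ℝ) - 1))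

/-- the expected number -/
noncomputable def expP (G : ℤ[X]) (z N q : ℕ) (L : ℝ) : ℝ :=
  N / L / q.totient * ∏ p ∈ (Icc 1 z).filter (fun p : ℕ => p.Prime ∧ ¬ p ∣ q), (1 - (omP G p : ℝ) / ((p : ℝ) - 1))

theorem facP_pos {G : ℤ[X]} (hadm : ∀ p : ℕ, p.Prime → omP G p + 1 < p) {p : ℕ} (hp : p.Prime) :
    0 < 1 - (omP G p : ℝ) / ((p : ℝ) - 1) := by
  have h5 : (omP G p : ℝ) + 1 < p := by exact_mod_cast hadm p hp
  have hp1 : (0 : ℝ) < (p : ℝ) - 1 := by
    have : (1 : ℝ) < p := by exact_mod_cast hp.one_lt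
    linarith
  have : (omP G p : ℝ) / ((p : ℝ) - 1) < 1 := by
    rw [div_lt_one hp1]
    linarith
  linarith

theorem densP_pos {G : ℤ[X]} (hadm : ∀ p : ℕ, p.Prime → omP G p + 1 < p) (z : ℕ) : 0 < densP G z :=
  prod_pos fun _ hp => facP_pos hadm (mem_filter.mp hp).2

theorem expP_eq {G : ℤ[X]} (hadm : ∀ p : ℕ, p.Prime → omP G p + 1 < p) {z Y N q : ℕ} (hq : 1 ≤ q) (L : ℝ) :
    densP G z * (gg (hV (VP G z Y)) q / q) * (N / L) = expP G z N q L := by
  have e1 : densP G z = (∏ p ∈ (Icc 1 z).filter (fun p : ℕ => p.Prime ∧ ¬ p ∣ q), (1 - (omP G p : ℝ) / ((p : ℝ) - 1))) *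
      ∏ p ∈ q.primeFactors.filter (fun p => p ≤ z), (1 - (omP G p : ℝ) / ((p : ℝ) - 1)) := by
    unfold densP
    rw [← prod_filter_mul_prod_filter_not ((Icc 1 z).filter Nat.Prime) (fun p => ¬ p ∣ q), filter_filter, filter_filter]
    congr 1
    apply prod_congr _ fun _ _ => rfl
    ext p
    rw [mem_filter, mem_filter, mem_Icc, Nat.mem_primeFactors, not_not]
    constructor
    · rintro ⟨h5, h6, h7⟩
      exact ⟨⟨h6, h7, by omega⟩, by omega⟩
    · rintro ⟨⟨h5, h6, _⟩, h7⟩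
      exact ⟨⟨h5.one_lt.le, by omega⟩, h5, h6⟩
  have hq0 : (q : ℝ) ≠ 0 := by
    have : q ≠ 0 := by omega
    exact_mod_cast this
  have hφ : (q.totient : ℝ) = q * ∏ p ∈ q.primeFactors, (1 - ((p : ℝ))⁻¹) := by
    have h1 := Nat.totient_eq_mul_prod_factors q
    have h2 : ((q.totient : ℚ) : ℝ) = (((q : ℚ) * ∏ p ∈ q.primeFactors, (1 - (p : ℚ)⁻¹) : ℚ) : ℝ) := by rw [h1]
    push_cast at h2
    exact h2
  have hfp : ∀ p ∈ q.primeFactors, (1 - ((p : ℝ))⁻¹) ≠ 0 := by
    intro p hp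
    have hpp := Nat.prime_of_mem_primeFactors hp
    have : (1 : ℝ) < p := by exact_mod_cast hpp.one_lt
    have h3 : ((p : ℝ))⁻¹ < 1 := inv_lt_one_of_one_lt₀ this
    linarith
  have e2 : gg (hV (VP G z Y)) q * (∏ p ∈ q.primeFactors.filter (fun p => p ≤ z), (1 - (omP G p : ℝ) / ((p : ℝ) - 1))) *
      (∏ p ∈ q.primeFactors, (1 - ((p : ℝ))⁻¹)) = 1 := by
    unfold gg
    rw [← prod_filter_mul_prod_filter_not q.primeFactors (fun p => p ≤ z) (fun p => 1 + hV (VP G z Y) p),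
      ← prod_filter_mul_prod_filter_not q.primeFactors (fun p => p ≤ z) (fun p => (1 - ((p : ℝ))⁻¹))]
    have h1 : (∏ p ∈ q.primeFactors.filter (fun p => p ≤ z), (1 + hV (VP G z Y) p)) *
        (∏ p ∈ q.primeFactors.filter (fun p => p ≤ z), (1 - (omP G p : ℝ) / ((p : ℝ) - 1))) *
        (∏ p ∈ q.primeFactors.filter (fun p => p ≤ z), (1 - ((p : ℝ))⁻¹)) = 1 := by
      rw [← prod_mul_distrib, ← prod_mul_distrib]
      apply prod_eq_one
      intro p hp
      rw [mem_filter] at hp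
      have hpp := Nat.prime_of_mem_primeFactors hp.1
      unfold hV
      rw [omV_VP G z Y hpp, if_pos hp.2]
      have h5 : (omP G p : ℝ) + 1 < p := by exact_mod_cast hadm p hpp
      have hp1 : (1 : ℝ) < p := by exact_mod_cast hpp.one_lt
      have hp0 : (p : ℝ) ≠ 0 := by linarith
      have hp2 : (p : ℝ) - 1 ≠ 0 := by linarith
      have hp3 : (p : ℝ) - (omP G p + 1) ≠ 0 := by linarith
      push_cast
      field_simp
      ring
    have h2 : (∏ p ∈ q.primeFactors.filter (fun p => ¬ p ≤ z), (1 + hV (VP G z Y) p)) *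
        (∏ p ∈ q.primeFactors.filter (fun p => ¬ p ≤ z), (1 - ((p : ℝ))⁻¹)) = 1 := by
      rw [← prod_mul_distrib]
      apply prod_eq_one
      intro p hp
      rw [mem_filter] at hp
      have hpp := Nat.prime_of_mem_primeFactors hp.1
      unfold hV
      rw [omV_VP G z Y hpp, if_neg hp.2]
      have hp1 : (1 : ℝ) < p := by exact_mod_cast hpp.one_lt
      have hp0 : (p : ℝ) ≠ 0 := by linarith
      have hp2 : (p : ℝ) - 1 ≠ 0 := by linarith
      push_cast
      field_simp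
      ring
    calc _ = ((∏ p ∈ q.primeFactors.filter (fun p => p ≤ z), (1 + hV (VP G z Y) p)) *
        (∏ p ∈ q.primeFactors.filter (fun p => p ≤ z), (1 - (omP G p : ℝ) / ((p : ℝ) - 1))) *
        (∏ p ∈ q.primeFactors.filter (fun p => p ≤ z), (1 - ((p : ℝ))⁻¹))) *
        ((∏ p ∈ q.primeFactors.filter (fun p => ¬ p ≤ z), (1 + hV (VP G z Y) p)) *
        (∏ p ∈ q.primeFactors.filter (fun p => ¬ p ≤ z), (1 - ((p : ℝ))⁻¹))) := by ring
      _ = 1 := by rw [h1, h2, one_mul]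
  unfold expP
  rw [e1, hφ]
  have hpr : (∏ p ∈ q.primeFactors, (1 - ((p : ℝ))⁻¹)) ≠ 0 := prod_ne_zero_iff.mpr hfp
  set α := ∏ p ∈ (Icc 1 z).filter (fun p : ℕ => p.Prime ∧ ¬ p ∣ q), (1 - (omP G p : ℝ) / ((p : ℝ) - 1))
  set β := ∏ p ∈ q.primeFactors.filter (fun p => p ≤ z), (1 - (omP G p : ℝ) / ((p : ℝ) - 1))
  set γ := ∏ p ∈ q.primeFactors, (1 - ((p : ℝ))⁻¹)
  set g := gg (hV (VP G z Y)) q
  have e3 : g * β = 1 / γ := by
    rw [eq_div_iff hpr]
    exact e2
  calc α * β * (g / q) * (N / L) = α * (g * β) / q * (N / L) := by ring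
    _ = _ := by
        rw [e3]
        field_simp

open Classical in
/-- the weight -/
noncomputable def WP (G : ℤ[X]) (z Y n : ℕ) : ℝ :=
  if (n + Y).Prime ∧ ∀ p : ℕ, p.Prime → p ≤ z → ¬ (p : ℤ) ∣ G.eval ((n + Y : ℕ) : ℤ) then 1 else 0

open Classical in
/-- the number of the primes -/
noncomputable def cntP (G : ℤ[X]) (z Y N q a : ℕ) : ℕ :=
  ((Ioc Y (Y + N)).filter (fun n : ℕ => n.Prime ∧ n ≡ a [MOD q] ∧
    ∀ p : ℕ, p.Prime → p ≤ z → ¬ (p : ℤ) ∣ G.eval (n : ℤ))).card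

theorem cntP_eq (G : ℤ[X]) (z Y N q a : ℕ) : cntW (WP G z Y) N a q = cntP G z Y N q (a + Y) := by
  classical
  unfold cntW WP cntP
  rw [← sum_filter, sum_const, nsmul_eq_mul, mul_one, filter_filter]
  congr 1
  apply card_bij (fun n _ => n + Y)
  · intro n hn
    rw [mem_filter, mem_Icc] at hn
    rw [mem_filter, mem_Ioc]
    exact ⟨⟨by omega, by omega⟩, hn.2.2.1, Nat.ModEq.add_right Y hn.2.1, hn.2.2.2⟩
  · intro n _ n' _ h
    omega
  · intro n hn
    rw [mem_filter, mem_Ioc] at hn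
    refine ⟨n - Y, ?_, by omega⟩
    have e : n - Y + Y = n := by omega
    rw [mem_filter, mem_Icc, e]
    refine ⟨⟨by omega, by omega⟩, ?_, hn.2.1, hn.2.2.2⟩
    apply Nat.ModEq.add_right_cancel' Y
    rw [e]
    exact hn.2.2.1

/-- the moduli -/
noncomputable def MP (G : ℤ[X]) (z Q a : ℕ) : Finset ℕ := by
  classical
  exact (Ioc Q (2 * Q)).filter (fun q : ℕ => a.Coprime q ∧
    ∀ p : ℕ, p.Prime → p ≤ z → p ∣ q → ¬ (p : ℤ) ∣ G.eval (a : ℤ))

theorem MP_eq (G : ℤ[X]) (z Q a Y : ℕ) : MP G z Q (a + Y) = by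
    classical
    exact (Ioc Q (2 * Q)).filter (fun q : ℕ => ∀ p : ℕ, p.Prime → p ∣ q → ¬ VP G z Y p a) := by
  classical
  unfold MP
  apply filter_congr
  intro q hq
  rw [mem_Ioc] at hq
  unfold VP
  constructor
  · rintro ⟨h1, h2⟩ p hp hpq h3
    rcases h3 with h3 | h3
    · have h4 := Nat.dvd_gcd h3 hpq
      rw [h1.gcd_eq_one] at h4
      exact hp.one_lt.ne' (Nat.dvd_one.mp h4)
    · exact h2 p hp h3.1 hpq h3.2
  · intro h1
    refine ⟨?_, fun p hp hpz hpq hd => h1 p hp hpq (Or.inr ⟨hpz, hd⟩)⟩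
    apply Nat.coprime_of_dvd
    intro p hp hpa hpq
    exact h1 p hp hpq (Or.inl hpa)

end Pool.Agent.H537.TP
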