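import Pool.Agent.H537.TP.Fin
import Pool.Agent.H537.FG.Root

/-! Limits to the equidistribution of the primes `p` for which `G(p)` has no small prime factor: the theorem. -/

set_option autoImplicit false
set_option maxHeartbeats 4000000

open Finset Polynomial Filter

namespace Pool.Agent.H537.TP

open Pool.Agent.H537.FG Pool.Agent.N914.MR Pool.Agent.H537.FT Pool.Agent.H537.GP Pool.Agent.H537.TR

open Classical in
/-- small moduli -/
theorem small_modP (k : ℕ) (B1 : ℝ) (hB1 : 0 < B1) (Cx : ℝ) (hCx : 1 ≤ Cx) (η : ℝ) (hη : 0 < η) :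
    ∃ u : ℕ, 2 ≤ u ∧ ∀ᶠ N : ℕ in atTop, ∀ (G : ℤ[X]) (z Y y q a : ℕ), G.natDegree ≤ k →
      (∀ p : ℕ, p.Prime → omP G p + 1 < p) → z ^ u ≤ N → (Y : ℝ) ≤ Cx * N → 1 ≤ q →
      (q : ℝ) ≤ Real.log N ^ B1 → (∀ p : ℕ, p.Prime → p ∣ q → ¬ VP G z Y p a) →
      (N : ℝ) / Real.log N ^ B1 ≤ y → y ≤ N →
      |cntW (WP G z Y) y a q - expP G z y q (Real.log N)| ≤ η * expP G z y q (Real.log N) ∧
      0 < expP G z y q (Real.log N) := by
  obtain ⟨u, hu, hF⟩ := fundPr k B1 hB1 Cx hCx (η / 2) (half_pos hη)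
  refine ⟨u, hu, ?_⟩
  filter_upwards [hF, eventually_ge_atTop (3 ^ u)] with N hN hN3
  intro G z Y y q a hdeg hadm hzN hY hq hqL hg hy hyN
  set Z := max z 3 with hZ
  have hZN : Z ^ u ≤ N := by
    rw [hZ]
    rcases le_total z 3 with h | h
    · rw [max_eq_right h]
      exact hN3
    · rw [max_eq_left h]
      exact hzN
  set P : Finset ℕ := (Icc 1 z).filter (fun p : ℕ => p.Prime ∧ ¬ p ∣ q) with hP
  have hPm : ∀ p ∈ P, p.Prime ∧ p ≤ z ∧ ¬ p ∣ q := by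
    intro p hp
    rw [hP, mem_filter, mem_Icc] at hp
    exact ⟨hp.2.1, hp.1.2, hp.2.2⟩
  have hcop : (a + Y).Coprime q := by
    apply Nat.coprime_of_dvd
    intro p hp hpa hpq
    exact hg p hp hpq (Or.inl hpa)
  obtain ⟨g1, g2, g3⟩ := hN Z Y y q (a + Y) (le_max_right _ _) hZN hY hq hqL hcop hy hyN P
    (fun p b => (p : ℤ) ∣ G.eval (b : ℤ)) (omP G)
    (fun p hp => ⟨(hPm p hp).1, (hPm p hp).2.1.trans (le_max_left _ _), hadm p (hPm p hp).1,
      (omP_le (hPm p hp).1 (hadm p (hPm p hp).1)).trans hdeg⟩)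
    (fun p hp => (hPm p hp).2.2) (fun p _ => by
      unfold omP
      apply congrArg card
      ext n
      simp only [mem_filter])
  have hexp : expP G z y q (Real.log N) = y / Real.log N / q.totient * ∏ p ∈ P, (1 - (omP G p : ℝ) / ((p : ℝ) - 1)) := by
    unfold expP
    congr 1
  rw [← hexp] at g1 g2 g3
  refine ⟨?_, g3⟩
  -- the two counts
  set S1 := (Pr Y y Z).filter (fun n : ℕ => n ≡ a + Y [MOD q] ∧ ∀ p ∈ P, ¬ (p : ℤ) ∣ G.eval ((n % p : ℕ) : ℤ)) with hS1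
  set S2 := (Ioc Y (Y + y)).filter (fun n : ℕ => n.Prime ∧ n ≡ a + Y [MOD q] ∧
    ∀ p : ℕ, p.Prime → p ≤ z → ¬ (p : ℤ) ∣ G.eval (n : ℤ)) with hS2
  have hc2 : cntW (WP G z Y) y a q = (S2.card : ℝ) := by
    rw [cntP_eq]
    unfold cntP
    rw [hS2]
  have hsub : S1 ⊆ S2 := by
    intro n hn
    rw [hS1, mem_filter] at hn
    unfold Pr at hn
    rw [mem_filter] at hn
    rw [hS2, mem_filter]
    refine ⟨hn.1.1, hn.1.2.1, hn.2.1, fun p hp hpz hd => ?_⟩
    by_cases hpq : p ∣ q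
    · exact hg p hp hpq (Or.inr ⟨hpz, (dvd_congr G (hn.2.1.of_dvd hpq)).mp hd⟩)
    · have h5 : p ∈ P := by
        rw [hP, mem_filter, mem_Icc]
        exact ⟨⟨hp.one_lt.le, hpz⟩, hp, hpq⟩
      exact hn.2.2 p h5 ((dvd_congr G (Nat.mod_modEq n p)).mpr hd)
  have hsub2 : S2 ⊆ S1 ∪ Icc 1 Z := by
    intro n hn
    rw [hS2, mem_filter] at hn
    rw [mem_union]
    by_cases hnZ : n ≤ Z
    · right
      rw [mem_Icc]
      exact ⟨hn.2.1.one_lt.le, hnZ⟩
    · left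
      push Not at hnZ
      rw [hS1, mem_filter]
      unfold Pr
      rw [mem_filter]
      refine ⟨⟨hn.1, hn.2.1, hnZ⟩, hn.2.2.1, fun p hp hd => ?_⟩
      exact hn.2.2.2 p (hPm p hp).1 (hPm p hp).2.1 ((dvd_congr G (Nat.mod_modEq n p)).mp hd)
  have k1 : (S1.card : ℝ) ≤ S2.card := by exact_mod_cast card_le_card hsub
  have k2 : (S2.card : ℝ) ≤ S1.card + Z := by
    have := (card_le_card hsub2).trans (card_union_le _ _)
    rw [Nat.card_Icc, Nat.add_sub_cancel] at this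
    exact_mod_cast this
  have k3 : |(S1.card : ℝ) - expP G z y q (Real.log N)| ≤ η / 2 * expP G z y q (Real.log N) := by
    refine le_trans (le_of_eq ?_) g1
    apply congrArg
    apply congrArg₂ _ _ rfl
    apply congrArg
    apply congrArg card
    rw [hS1]
    ext n
    simp only [mem_filter]
  rw [hc2]
  rw [abs_le] at k3 ⊢
  constructor
  · nlinarith [k3.1]
  · nlinarith [k3.2]

open Classical in
theorem one_parityP (k : ℕ) (B : ℝ) (hB : 0 < B) (K : ℕ) (hK2 : 2 ≤ K) (hBK : B < K) :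
    ∃ η₀ : ℝ, 0 < η₀ ∧ ∀ η : ℝ, 0 < η → η ≤ η₀ → ∀ Cx : ℝ, 1 ≤ Cx → ∃ u : ℕ, ∀ E : ℝ, 0 < E → ∀ ε : ℝ, 0 < ε →
      ∀ᶠ N : ℕ in atTop, ∀ (G : ℤ[X]) (Y z : ℕ), G.natDegree ≤ k → (∀ p : ℕ, p.Prime → omP G p + 1 < p) →
      (∀ n : ℕ, n ≤ N + Y → ((G.eval (n : ℤ)).natAbs : ℝ) ≤ (N : ℝ) ^ E) →
      (Y : ℝ) ≤ Cx * N → z ^ u ≤ N →
      ∃ a : ℕ, 1 ≤ a ∧ (a : ℝ) ≤ (N : ℝ) ^ ε ∧
        0 < ∑ q ∈ MP G z ⌊(N : ℝ) / Real.log N ^ B⌋₊ (a + Y), expP G z N q (Real.log N) ∧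
        η * ∑ q ∈ MP G z ⌊(N : ℝ) / Real.log N ^ B⌋₊ (a + Y), expP G z N q (Real.log N) ≤
          (-1) ^ K * (∑ q ∈ MP G z ⌊(N : ℝ) / Real.log N ^ B⌋₊ (a + Y), (cntP G z Y N q (a + Y) : ℝ) -
            ∑ q ∈ MP G z ⌊(N : ℝ) / Real.log N ^ B⌋₊ (a + Y), expP G z N q (Real.log N)) := by
  have hK0 : (0 : ℝ) < K := by
    have : 0 < K := by omega
    exact_mod_cast this
  obtain ⟨c0, hc0, w0, hroot⟩ := root_range (X : ℤ[X]) (by rw [Polynomial.map_X]; exact irreducible_X)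
    (θ := 1 / (2 * (K : ℝ))) (by positivity)
  obtain ⟨η₀, hη₀, hpar⟩ := parityV (k + 1) c0 hc0 B hB K hK2 hBK
  refine ⟨η₀, hη₀, fun η hη hηle Cx hCx => ?_⟩
  obtain ⟨u, hu, hsm⟩ := small_modP k (B + 1) (by linarith) Cx hCx η hη
  refine ⟨u, fun E hE ε hε => ?_⟩
  have hlogX : Tendsto (fun X : ℕ => Real.log (X : ℝ)) atTop atTop :=
    Real.tendsto_log_atTop.comp tendsto_natCast_atTop_atTop
  have hcast : Tendsto (fun N : ℕ => (N : ℝ)) atTop atTop := tendsto_natCast_atTop_atTop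
  have hL1 := hlogX.eventually (parL B hB K hK2 1 1 w0 one_pos one_pos)
  filter_upwards [hpar η hη hηle (E + 2) (by linarith) ε hε, hL1, hlogX.eventually_ge_atTop (1 : ℝ), hsm,
    hcast.eventually_ge_atTop (Cx + 1), eventually_ge_atTop 3]
    with N h1 h2 h3 h4 h5 h6
  intro G Y z hdeg hadm hsize hY hzN
  set L := Real.log (N : ℝ) with hL
  have hL0 : 0 < L := by linarith
  have hN0 : (0 : ℝ) < N := by linarith
  have hN1 : (1 : ℝ) ≤ N := by linarith
  obtain ⟨a, ha1, ha2, ha3, hQ1, _, ha4⟩ := h1 (VP G z Y) (fun a => if G.eval ((a + Y : ℕ) : ℤ) = 0 then a + Y else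
      (a + Y) * (G.eval ((a + Y : ℕ) : ℤ)).natAbs) N
    (WP G z Y) (fun y => (y : ℝ) / L) (1 / L) (densP G z)
    (VP_per G z Y)
    (by
      intro p hp
      rw [omV_VP G z Y hp]
      have h7 := hadm p hp
      have h8 := omP_le hp h7
      split_ifs
      · exact ⟨h7, by omega⟩
      · exact ⟨hp.one_lt, by omega⟩)
    (by
      intro a ha haN hV2
      have haY : ((a + Y : ℕ) : ℝ) ≤ (N : ℝ) ^ (2 : ℝ) := by
        push_cast
        have e1 : (a : ℝ) ≤ N := by exact_mod_cast haN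
        have e2 : (N : ℝ) ^ (2 : ℝ) = N * N := by
          rw [show (2 : ℝ) = ((2 : ℕ) : ℝ) by norm_num, Real.rpow_natCast, sq]
        rw [e2]
        have e3 : (a : ℝ) + Y ≤ (Cx + 1) * N := by linarith
        exact e3.trans (mul_le_mul_of_nonneg_right h5 hN0.le)
      have hE1 : (1 : ℝ) ≤ (N : ℝ) ^ E := Real.one_le_rpow hN1 hE.le
      have hE2 : (N : ℝ) ^ (E + 2) = (N : ℝ) ^ (2 : ℝ) * (N : ℝ) ^ E := by
        rw [← Real.rpow_add hN0]
        ring_nf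
      have hN2 : (0 : ℝ) ≤ (N : ℝ) ^ (2 : ℝ) := by positivity
      by_cases h0 : G.eval ((a + Y : ℕ) : ℤ) = 0
      · simp only [if_pos h0]
        refine ⟨by omega, ?_, ?_⟩
        · rw [hE2]
          exact haY.trans (le_mul_of_one_le_right hN2 hE1)
        · intro p hp hV
          rcases hV with hV | hV
          · exact hV
          · exfalso
            apply hV2
            right
            refine ⟨hp.two_le.trans hV.1, ?_⟩
            rw [h0]
            exact dvd_zero _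
      · simp only [if_neg h0]
        have h0' : (G.eval ((a + Y : ℕ) : ℤ)).natAbs ≠ 0 := Int.natAbs_ne_zero.mpr h0
        refine ⟨Nat.mul_ne_zero (by omega) h0', ?_, ?_⟩
        · rw [hE2, Nat.cast_mul]
          exact mul_le_mul haY (hsize (a + Y) (by omega)) (Nat.cast_nonneg _) hN2
        · intro p hp hV
          rcases hV with hV | hV
          · exact Dvd.dvd.mul_right hV _
          · exact Dvd.dvd.mul_left (Int.natCast_dvd.mp hV.2) _)
    (by
      obtain ⟨g1, g2, g3, g4, g5, g6, g7⟩ := h2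
      have hw : w0 ≤ wF B K L := by exact_mod_cast g1
      refine (hroot (wF B K L) (zF B K L) hw g3).trans ?_
      apply sum_le_sum_of_subset_of_nonneg
      · intro p hp
        rw [mem_filter] at hp ⊢
        refine ⟨hp.1, hp.2.1, ?_⟩
        refine ⟨(p - 1) * Y, Or.inl ?_⟩
        have e1 : (p - 1) * Y + Y = p * Y := by
          have := hp.2.1.pos
          obtain ⟨m, rfl⟩ : ∃ m, p = m + 1 := ⟨p - 1, by omega⟩
          simp only [Nat.add_sub_cancel]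
          ring
        rw [e1]
        exact dvd_mul_right _ _
      · intro p _ _
        positivity)
    (by linarith) le_rfl (by positivity) (densP_pos hadm z)
    (by
      intro n hn p hp hV
      unfold WP at hn
      rw [ne_eq, ite_eq_right_iff, Classical.not_imp] at hn
      rcases hV with hV | hV
      · have := (Nat.prime_dvd_prime_iff_eq hp hn.1.1).mp hV
        omega
      · exact absurd hV.2 (hn.1.2 p hp hV.1))
    (by
      intro y _ _
      have e1 : (y : ℝ) / L - 1 / L * y = 0 := by ring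
      rw [e1, abs_zero]
      positivity)
    (by
      intro q a y hq hqL hg hy1 hy2
      rw [expP_eq hadm hq]
      exact (h4 G z Y y q a hdeg hadm hzN hY hq hqL hg hy1 hy2).1)
  have hsum : ∑ q ∈ MP G z ⌊(N : ℝ) / L ^ B⌋₊ (a + Y), densP G z * (gg (hV (VP G z Y)) q / q) * (N / L) =
      ∑ q ∈ MP G z ⌊(N : ℝ) / L ^ B⌋₊ (a + Y), expP G z N q L := by
    refine sum_congr rfl fun q hq => ?_
    unfold MP at hq
    rw [mem_filter, mem_Ioc] at hq
    rw [expP_eq hadm (by omega)]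
  refine ⟨a, ha1, ha2, ?_, ?_⟩
  · set Q := ⌊(N : ℝ) / L ^ B⌋₊ with hQd
    obtain ⟨j, hj1, hj2⟩ : ∃ j : ℕ, Q < 2 ^ j ∧ 2 ^ j ≤ 2 * Q := by
      refine ⟨Nat.log 2 Q + 1, Nat.lt_pow_succ_log_self (by norm_num) Q, ?_⟩
      rw [pow_succ]
      have := Nat.pow_log_le_self 2 (by omega : Q ≠ 0)
      omega
    have hmem : 2 ^ j ∈ MP G z Q (a + Y) := by
      rw [MP_eq, mem_filter, mem_Ioc]
      refine ⟨⟨hj1, hj2⟩, fun p hp hpd => ?_⟩
      have hp2 : p = 2 := (Nat.prime_dvd_prime_iff_eq hp Nat.prime_two).mp (hp.dvd_of_dvd_pow hpd)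
      rw [hp2]
      exact ha3
    refine sum_pos (fun q hq => ?_) ⟨2 ^ j, hmem⟩
    unfold MP at hq
    rw [mem_filter, mem_Ioc] at hq
    rw [← expP_eq hadm (Y := Y) (by omega)]
    have hq0 : (0 : ℝ) < q := by
      have : 0 < q := by omega
      exact_mod_cast this
    have hgg : 0 < gg (hV (VP G z Y)) q := by
      unfold gg
      apply prod_pos
      intro p hp
      have hpp := Nat.prime_of_mem_primeFactors hp
      have h8 : omV (VP G z Y) p < p := by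
        rw [omV_VP G z Y hpp]
        have h7 := hadm p hpp
        split_ifs
        · exact h7
        · exact hpp.one_lt
      have := hV_nonneg h8
      linarith
    have hd := densP_pos hadm z
    positivity
  · rw [← hsum]
    rw [MP_eq]
    simp only [← cntP_eq]
    exact ha4

open Classical in
/-- the limits to the equidistribution, uniformly in the polynomial, the interval and the sifting limit -/
theorem mainP (k : ℕ) (B : ℝ) (hB : 0 < B) :
    ∃ h : ℝ, 0 < h ∧ ∀ Cx : ℝ, 1 ≤ Cx → ∃ u : ℕ, ∀ E : ℝ, 0 < E → ∀ ε : ℝ, 0 < ε →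
      ∀ᶠ N : ℕ in atTop, ∀ (G : ℤ[X]) (Y z : ℕ), G.natDegree ≤ k → (∀ p : ℕ, p.Prime → omP G p + 1 < p) →
      (∀ n : ℕ, n ≤ N + Y → ((G.eval (n : ℤ)).natAbs : ℝ) ≤ (N : ℝ) ^ E) →
      (Y : ℝ) ≤ Cx * N → z ^ u ≤ N →
      (∃ a : ℕ, Y < a ∧ (a : ℝ) ≤ Y + (N : ℝ) ^ ε ∧
        0 < ∑ q ∈ MP G z ⌊(N : ℝ) / Real.log N ^ B⌋₊ a, expP G z N q (Real.log N) ∧
        (1 + h) * ∑ q ∈ MP G z ⌊(N : ℝ) / Real.log N ^ B⌋₊ a, expP G z N q (Real.log N) ≤
          ∑ q ∈ MP G z ⌊(N : ℝ) / Real.log N ^ B⌋₊ a, (cntP G z Y N q a : ℝ)) ∧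
      (∃ a : ℕ, Y < a ∧ (a : ℝ) ≤ Y + (N : ℝ) ^ ε ∧
        0 < ∑ q ∈ MP G z ⌊(N : ℝ) / Real.log N ^ B⌋₊ a, expP G z N q (Real.log N) ∧
        ∑ q ∈ MP G z ⌊(N : ℝ) / Real.log N ^ B⌋₊ a, (cntP G z Y N q a : ℝ) ≤
          (1 - h) * ∑ q ∈ MP G z ⌊(N : ℝ) / Real.log N ^ B⌋₊ a, expP G z N q (Real.log N)) := by
  obtain ⟨K1, hK1⟩ := exists_nat_gt B
  have hK10 : (0 : ℝ) ≤ K1 := Nat.cast_nonneg _
  obtain ⟨η1, hη1, h1⟩ := one_parityP k B hB (2 * (K1 + 1)) (by omega) (by push_cast; linarith)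
  obtain ⟨η2, hη2, h2⟩ := one_parityP k B hB (2 * (K1 + 1) + 1) (by omega) (by push_cast; linarith)
  set η := min η1 η2 with hηd
  have hη : 0 < η := lt_min hη1 hη2
  refine ⟨η, hη, fun Cx hCx => ?_⟩
  obtain ⟨u1, hu1⟩ := h1 η hη (min_le_left _ _) Cx hCx
  obtain ⟨u2, hu2⟩ := h2 η hη (min_le_right _ _) Cx hCx
  refine ⟨max (max u1 u2) 1, fun E hE ε hε => ?_⟩
  filter_upwards [hu1 E hE ε hε, hu2 E hE ε hε, eventually_ge_atTop 1] with N g1 g2 g3
  intro G Y z hdeg hadm hsize hY hzN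
  set L := Real.log (N : ℝ) with hL
  have hpw : ∀ u : ℕ, u ≤ max (max u1 u2) 1 → z ^ u ≤ N := by
    intro u hu
    rcases Nat.eq_zero_or_pos z with h0 | h0
    · rcases Nat.eq_zero_or_pos u with h3 | h3
      · rw [h3, pow_zero]
        exact g3
      · rw [h0, zero_pow (by omega)]
        exact Nat.zero_le _
    · exact (Nat.pow_le_pow_right h0 hu).trans hzN
  obtain ⟨a1, a11, a12, a13, a14⟩ := g1 G Y z hdeg hadm hsize hY (hpw u1 (le_trans (le_max_left _ _) (le_max_left _ _)))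
  obtain ⟨a2, a21, a22, a23, a24⟩ := g2 G Y z hdeg hadm hsize hY (hpw u2 (le_trans (le_max_right _ _) (le_max_left _ _)))
  constructor
  · refine ⟨a1 + Y, by omega, by push_cast; linarith, a13, ?_⟩
    have e2 : (-1 : ℝ) ^ (2 * (K1 + 1)) = 1 := by rw [pow_mul]; norm_num
    rw [e2, one_mul] at a14
    linarith
  · refine ⟨a2 + Y, by omega, by push_cast; linarith, a23, ?_⟩
    have e2 : (-1 : ℝ) ^ (2 * (K1 + 1) + 1) = -1 := by
      rw [pow_succ, pow_mul]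
      norm_num
    rw [e2] at a24
    linarith

end Pool.Agent.H537.TP
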