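import Pool.Agent.H537.TP.Sv

/-! The fundamental lemma for the primes, asymptotic form. -/

set_option autoImplicit false
set_option maxHeartbeats 4000000

open Finset Filter

namespace Pool.Agent.H537.TP

open Pool.Agent.W41
open Pool.Agent.Results.MP_00e23e_nt.HybridMeanValue (E primesAP li)

theorem JJ_log {z : ℕ} (hz : 1 ≤ z) : (JJ z : ℝ) + 2 ≤ 2 * Real.log z + 3 := by
  have h1 : JJ z ≤ Nat.log 2 z + 1 := by
    unfold JJ
    have := Nat.log_le_self 2 (Nat.log 2 z)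
    omega
  have h2 : 2 ^ Nat.log 2 z ≤ z := Nat.pow_log_le_self 2 (by omega)
  have h3 : (2 : ℝ) ^ Nat.log 2 z ≤ z := by exact_mod_cast h2
  have h4 := Real.log_le_log (by positivity) h3
  rw [Real.log_pow] at h4
  have h5 := Real.log_two_gt_d9
  have h6 : (Nat.log 2 z : ℝ) ≤ 2 * Real.log z := by
    have h7 : (0 : ℝ) ≤ Nat.log 2 z := Nat.cast_nonneg _
    nlinarith
  have h8 : (JJ z : ℝ) ≤ Nat.log 2 z + 1 := by exact_mod_cast h1
  linarith

/-- the mass of the window -/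
theorem li_window (B1 : ℝ) (hB1 : 0 < B1) (Cx : ℝ) (hCx : 1 ≤ Cx) (η : ℝ) (hη : 0 < η) (hη1 : η ≤ 1) :
    ∀ᶠ N : ℕ in atTop, ∀ (z Y y : ℕ), 2 ≤ z → z ^ 2 ≤ N → (Y : ℝ) ≤ Cx * N →
      (N : ℝ) / Real.log N ^ B1 ≤ y → y ≤ N →
      max Y z ≤ Y + y ∧ |(li ((Y + y : ℕ) : ℝ) - li ((max Y z : ℕ) : ℝ)) - y / Real.log N| ≤ η * (y / Real.log N) := by
  have hcast : Tendsto (fun N : ℕ => (N : ℝ)) atTop atTop := tendsto_natCast_atTop_atTop
  have hlogN : Tendsto (fun N : ℕ => Real.log (N : ℝ)) atTop atTop := Real.tendsto_log_atTop.comp hcast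
  -- `√N ≤ (η/2) N / log^B1 N`
  have hs1 : ∀ᶠ N : ℕ in atTop, Real.sqrt N ≤ η / 2 * (N / Real.log N ^ B1) := by
    have h2 := isLittleO_log_rpow_rpow_atTop B1 (show (0 : ℝ) < 1 / 2 by norm_num)
    have h4 := h2.bound (show (0 : ℝ) < η / 2 by positivity)
    filter_upwards [hcast.eventually h4, hcast.eventually_ge_atTop 1, hlogN.eventually_ge_atTop 1] with N hN hN1 hL1
    have h5 : 0 ≤ Real.log (N : ℝ) := by linarith
    rw [Real.norm_of_nonneg (Real.rpow_nonneg h5 _), Real.norm_of_nonneg (by positivity), ← Real.sqrt_eq_rpow] at hN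
    have h6 : 0 < Real.log (N : ℝ) ^ B1 := Real.rpow_pos_of_pos (by linarith) _
    rw [← mul_div_assoc, le_div_iff₀ h6]
    have h7 : Real.sqrt N * Real.sqrt N = N := Real.mul_self_sqrt (by linarith)
    calc Real.sqrt N * Real.log N ^ B1 ≤ Real.sqrt N * (η / 2 * Real.sqrt N) :=
          mul_le_mul_of_nonneg_left hN (Real.sqrt_nonneg _)
      _ = η / 2 * (Real.sqrt N * Real.sqrt N) := by ring
      _ = _ := by rw [h7]
  -- `x0 = N / log^(B1+2) N`
  have hs2 : ∀ᶠ N : ℕ in atTop, 2 * Real.log N ^ (B1 + 2) ≤ N := by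
    have h2 := isLittleO_log_rpow_rpow_atTop (B1 + 2) (show (0 : ℝ) < 1 by norm_num)
    have h4 := h2.bound (show (0 : ℝ) < 1 / 2 by norm_num)
    filter_upwards [hcast.eventually h4, hcast.eventually_ge_atTop 1, hlogN.eventually_ge_atTop 1] with N hN hN1 hL1
    rw [Real.norm_of_nonneg (Real.rpow_nonneg (by linarith) _), Real.rpow_one, Real.norm_of_nonneg (by linarith)] at hN
    linarith
  have hs3 : ∀ᶠ N : ℕ in atTop, (B1 + 2) * Real.log (Real.log N) ≤ η / 4 * Real.log N := by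
    have h2 := Real.isLittleO_log_id_atTop.bound (show (0 : ℝ) < η / (4 * (B1 + 2)) by positivity)
    filter_upwards [hlogN.eventually h2, hlogN.eventually_ge_atTop 1] with N hN hL1
    simp only [id] at hN
    rw [Real.norm_of_nonneg (Real.log_nonneg hL1), Real.norm_of_nonneg (by linarith)] at hN
    calc (B1 + 2) * Real.log (Real.log N) ≤ (B1 + 2) * (η / (4 * (B1 + 2)) * Real.log N) :=
          mul_le_mul_of_nonneg_left hN (by linarith)
      _ = _ := by field_simp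
  filter_upwards [hs1, hs2, hs3, hlogN.eventually_ge_atTop 1, hlogN.eventually_ge_atTop (4 / η),
    hlogN.eventually_ge_atTop (2 * Real.log (Cx + 1) / η), hcast.eventually_ge_atTop 4] with N h1 h2 h3 h4 h5 h6 h7
  intro z Y y hz hzN hY hy hyN
  set L := Real.log (N : ℝ) with hL
  have hL0 : 0 < L := by linarith
  have hN0 : (0 : ℝ) < N := by linarith
  have hLB : 0 < L ^ B1 := Real.rpow_pos_of_pos hL0 _
  have hz0 : (2 : ℝ) ≤ z := by exact_mod_cast hz
  have hzs : (z : ℝ) ≤ Real.sqrt N := by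
    apply Real.le_sqrt_of_sq_le
    exact_mod_cast hzN
  have hzy : (z : ℝ) ≤ η / 2 * y := by
    calc (z : ℝ) ≤ η / 2 * (N / L ^ B1) := hzs.trans h1
      _ ≤ _ := mul_le_mul_of_nonneg_left hy (by positivity)
  have hy0 : (0 : ℝ) < y := by
    have : (0 : ℝ) < N / L ^ B1 := by positivity
    linarith
  have hzy' : z ≤ y := by
    have : (z : ℝ) ≤ y := by nlinarith
    exact_mod_cast this
  have hmax : max Y z ≤ Y + y := max_le (by omega) (by omega)
  refine ⟨hmax, ?_⟩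
  set x1 : ℝ := ((max Y z : ℕ) : ℝ) with hx1
  set x2 : ℝ := ((Y + y : ℕ) : ℝ) with hx2
  have hx12 : x1 ≤ x2 := by
    rw [hx1, hx2]
    exact_mod_cast hmax
  have hx1z : (z : ℝ) ≤ x1 := by
    rw [hx1]
    exact_mod_cast le_max_right Y z
  have hx1Y : (Y : ℝ) ≤ x1 := by
    rw [hx1]
    exact_mod_cast le_max_left Y z
  have hx1s : x1 ≤ Y + z := by
    rw [hx1]
    have : max Y z ≤ Y + z := max_le (by omega) (by omega)
    exact_mod_cast this
  have hx2' : x2 = Y + y := by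
    rw [hx2]
    push_cast
    rfl
  have hyL : 0 < (y : ℝ) / L := by positivity
  have hx2N : Real.log x2 ≤ L * (1 + η / 2) := by
    have e1 : x2 ≤ (Cx + 1) * N := by
      rw [hx2']
      have : (y : ℝ) ≤ N := by exact_mod_cast hyN
      linarith
    have e2 := Real.log_le_log (by linarith) e1
    rw [Real.log_mul (by linarith) hN0.ne', ← hL] at e2
    have e3 : Real.log (Cx + 1) ≤ η / 2 * L := by
      rw [div_le_iff₀ hη] at h6
      linarith
    linarith
  rw [abs_le]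
  constructor
  · -- lower bound
    have e1 := le_li_sub (hz0.trans hx1z) hx12
    have e2 : (1 - η) * (y / L) ≤ (x2 - x1) / Real.log x2 := by
      have e3 : 0 < Real.log x2 := Real.log_pos (by linarith)
      rw [le_div_iff₀ e3]
      have e4 : (1 - η / 2) * y ≤ x2 - x1 := by
        rw [hx2']
        linarith
      have e5 : (1 - η) * (1 + η / 2) ≤ 1 - η / 2 := by nlinarith
      have e6 : (0 : ℝ) ≤ 1 - η := by linarith
      calc (1 - η) * (y / L) * Real.log x2 ≤ (1 - η) * (y / L) * (L * (1 + η / 2)) :=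
            mul_le_mul_of_nonneg_left hx2N (by positivity)
        _ = (1 - η) * (1 + η / 2) * y := by field_simp
        _ ≤ (1 - η / 2) * y := mul_le_mul_of_nonneg_right e5 hy0.le
        _ ≤ _ := e4
    linarith
  · -- upper bound
    set x0 : ℝ := N / L ^ (B1 + 2) with hx0
    have hLB2 : 0 < L ^ (B1 + 2) := Real.rpow_pos_of_pos hL0 _
    have hx02 : 2 ≤ x0 := by
      rw [hx0, le_div_iff₀ hLB2]
      exact h2
    have hlx0 : Real.log x0 = L - (B1 + 2) * Real.log L := by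
      rw [hx0, Real.log_div hN0.ne' hLB2.ne', Real.log_rpow hL0]
    have hlx0' : (1 - η / 4) * L ≤ Real.log x0 := by
      rw [hlx0]
      linarith
    have hx0y : x0 ≤ y := by
      refine le_trans ?_ hy
      apply div_le_div_of_nonneg_left hN0.le hLB
      exact Real.rpow_le_rpow_of_exponent_le h4 (by linarith)
    have hlx00 : 0 < Real.log x0 := Real.log_pos (by linarith)
    have hm : (y : ℝ) / Real.log x0 ≤ (1 + η / 2) * (y / L) := by
      rw [div_le_iff₀ hlx00]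
      have e5 : 1 ≤ (1 + η / 2) * (1 - η / 4) := by nlinarith
      calc (y : ℝ) ≤ ((1 + η / 2) * (1 - η / 4)) * y := by nlinarith
        _ = (1 + η / 2) * (y / L) * ((1 - η / 4) * L) := by field_simp
        _ ≤ _ := mul_le_mul_of_nonneg_left hlx0' (by positivity)
    rcases le_or_gt x0 x1 with hc | hc
    · have e1 := li_sub_le (hz0.trans hx1z) hx12
      have e2 : (x2 - x1) / Real.log x1 ≤ y / Real.log x0 := by
        apply div_le_div₀ hy0.le _ hlx00 (Real.log_le_log (by linarith) hc)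
        rw [hx2']
        linarith
      nlinarith
    · have hx20 : x0 ≤ x2 := by
        rw [hx2']
        have : (0 : ℝ) ≤ Y := Nat.cast_nonneg _
        linarith
      have e1 := li_sub_le hx02 hx20
      have e2 := li_sub_le (hz0.trans hx1z) hc.le
      have e3 : (x2 - x0) / Real.log x0 ≤ y / Real.log x0 := by
        apply div_le_div_of_nonneg_right _ hlx00.le
        rw [hx2']
        linarith
      have e4 : (x0 - x1) / Real.log x1 ≤ η / 2 * (y / L) := by
        have e5 : (1 : ℝ) / 2 ≤ Real.log x1 := by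
          have := Real.log_le_log (by norm_num) (hz0.trans hx1z)
          have := Real.log_two_gt_d9
          linarith
        have e6 : (x0 - x1) / Real.log x1 ≤ 2 * x0 := by
          rw [div_le_iff₀ (by linarith)]
          nlinarith
        have e7 : 2 * x0 ≤ η / 2 * (y / L) := by
          have e8 : x0 * L ^ 2 ≤ y := by
            have e9 : L ^ (B1 + 2) = L ^ B1 * L ^ 2 := by
              rw [Real.rpow_add hL0]
              congr 1
              exact_mod_cast Real.rpow_natCast L 2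
            rw [hx0, e9]
            have e10 : (N : ℝ) / (L ^ B1 * L ^ 2) * L ^ 2 = N / L ^ B1 := by field_simp
            rw [e10]
            exact hy
          have e11 : 2 ≤ η / 2 * L := by
            rw [div_le_iff₀ hη] at h5
            linarith
          have e12 : x0 ≤ y / L / L := by
            rw [div_div, le_div_iff₀ (by positivity)]
            calc x0 * (L * L) = x0 * L ^ 2 := by ring
              _ ≤ y := e8
          calc 2 * x0 ≤ (η / 2 * L) * (y / L / L) := mul_le_mul e11 e12 (by linarith) (by positivity)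
            _ = _ := by field_simp
        linarith
      linarith

open Classical in
theorem fundPr (k : ℕ) (B1 : ℝ) (hB1 : 0 < B1) (Cx : ℝ) (hCx : 1 ≤ Cx) (η : ℝ) (hη : 0 < η) :
    ∃ u : ℕ, 2 ≤ u ∧ ∀ᶠ N : ℕ in atTop, ∀ (z Y y q c : ℕ), 3 ≤ z → z ^ u ≤ N → (Y : ℝ) ≤ Cx * N → 1 ≤ q →
      (q : ℝ) ≤ Real.log N ^ B1 → c.Coprime q → (N : ℝ) / Real.log N ^ B1 ≤ y → y ≤ N →
      ∀ (P : Finset ℕ) (Z : ℕ → ℕ → Prop) (om : ℕ → ℕ),
      (∀ p ∈ P, p.Prime ∧ p ≤ z ∧ om p + 1 < p ∧ om p ≤ k) → (∀ p ∈ P, ¬ p ∣ q) →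
      (∀ p ∈ P, ((range p).filter (fun a => a ≠ 0 ∧ Z p a)).card = om p) →
      |(((Pr Y y z).filter (fun n : ℕ => n ≡ c [MOD q] ∧ ∀ p ∈ P, ¬ Z p (n % p))).card : ℝ) -
        y / Real.log N / q.totient * ∏ p ∈ P, (1 - (om p : ℝ) / ((p : ℝ) - 1))| ≤
        η * (y / Real.log N / q.totient * ∏ p ∈ P, (1 - (om p : ℝ) / ((p : ℝ) - 1))) ∧
      (z : ℝ) ≤ η * (y / Real.log N / q.totient * ∏ p ∈ P, (1 - (om p : ℝ) / ((p : ℝ) - 1))) ∧
      0 < y / Real.log N / q.totient * ∏ p ∈ P, (1 - (om p : ℝ) / ((p : ℝ) - 1)) := by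
  obtain ⟨C0, K0, hC0, hK0, hloc⟩ := loc_sieve k
  obtain ⟨C1, hC1, hup⟩ := prod_up k
  obtain ⟨c1, hc1, hlow⟩ := prod_low k
  obtain ⟨b1, hb1⟩ := exists_pow_lt_of_lt_one (show (0 : ℝ) < η / 8 by positivity) (show (1 / 2 : ℝ) < 1 by norm_num)
  set b := max C0 b1 with hb
  have hbC : C0 ≤ b := le_max_left _ _
  have hb1' : 1 ≤ b := hC0.trans hbC
  have hbη : (1 / 2 : ℝ) ^ b ≤ η / 8 := (pow_le_pow_of_le_one (by norm_num) (by norm_num) (le_max_right _ _)).trans hb1.le
  have hCb : 1 ≤ C0 * b := Nat.mul_pos hC0 hb1'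
  obtain ⟨b2, hb2⟩ := exists_nat_gt B1
  set A' : ℕ := 2 * b2 + 4 * k + k ^ 2 + 3 with hA'
  obtain ⟨C, hC, hbv⟩ := bv_unif (2 * A') (Cx + 1) (by linarith)
  set η1 : ℝ := min η 1 / 4 with hη1
  have hη10 : 0 < η1 := by positivity
  have hη11 : η1 ≤ 1 := by
    have := min_le_right η 1
    linarith
  have hη1η : η1 ≤ η / 4 := by
    have := min_le_left η 1
    linarith
  refine ⟨32 * (C0 * b), by omega, ?_⟩
  have hcast : Tendsto (fun N : ℕ => (N : ℝ)) atTop atTop := tendsto_natCast_atTop_atTop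
  have hlogN : Tendsto (fun N : ℕ => Real.log (N : ℝ)) atTop atTop := Real.tendsto_log_atTop.comp hcast
  have hs1 : ∀ᶠ N : ℕ in atTop, Real.log N ^ B1 * K0 ≤ (N : ℝ) ^ ((1 : ℝ) / 16) := by
    have h2 := isLittleO_log_rpow_rpow_atTop B1 (show (0 : ℝ) < 1 / 16 by norm_num)
    have hK00 : (0 : ℝ) < K0 := by exact_mod_cast hK0
    have h4 := h2.bound (show (0 : ℝ) < 1 / K0 by positivity)
    filter_upwards [hcast.eventually h4, hcast.eventually_ge_atTop 1, hlogN.eventually_ge_atTop 1] with N hN hN1 hL1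
    rw [Real.norm_of_nonneg (Real.rpow_nonneg (by linarith) _), Real.norm_of_nonneg (by positivity)] at hN
    calc Real.log N ^ B1 * K0 ≤ (1 / K0 * (N : ℝ) ^ ((1 : ℝ) / 16)) * K0 := mul_le_mul_of_nonneg_right hN hK00.le
      _ = _ := by field_simp
  have hs5 : ∀ᶠ N : ℕ in atTop, Real.sqrt N ≤ η * (c1 / 2 ^ (4 * k) * (N / Real.log N ^ (2 * b2 + 4 * k + 1))) := by
    have h2 := isLittleO_log_rpow_rpow_atTop ((2 * b2 + 4 * k + 1 : ℕ) : ℝ) (show (0 : ℝ) < 1 / 2 by norm_num)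
    have h4 := h2.bound (show (0 : ℝ) < η * (c1 / 2 ^ (4 * k)) by positivity)
    filter_upwards [hcast.eventually h4, hcast.eventually_ge_atTop 1, hlogN.eventually_ge_atTop 1] with N hN hN1 hL1
    rw [Real.norm_of_nonneg (Real.rpow_nonneg (by linarith) _), Real.norm_of_nonneg (by positivity), ← Real.sqrt_eq_rpow,
      Real.rpow_natCast] at hN
    have h6 : 0 < Real.log (N : ℝ) ^ (2 * b2 + 4 * k + 1) := by positivity
    rw [← mul_div_assoc, ← mul_div_assoc, le_div_iff₀ h6]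
    have h7 : Real.sqrt N * Real.sqrt N = N := Real.mul_self_sqrt (by linarith)
    calc Real.sqrt N * Real.log N ^ (2 * b2 + 4 * k + 1) ≤ Real.sqrt N * (η * (c1 / 2 ^ (4 * k)) * Real.sqrt N) :=
          mul_le_mul_of_nonneg_left hN (Real.sqrt_nonneg _)
      _ = η * (c1 / 2 ^ (4 * k) * (Real.sqrt N * Real.sqrt N)) := by ring
      _ = _ := by rw [h7]
  set R : ℝ := 5 * K0 * (Real.sqrt C1 * 2 ^ k ^ 2) * (2 * Real.sqrt C) with hR
  have hR0 : 0 < R := by
    have hK00 : (0 : ℝ) < K0 := by exact_mod_cast hK0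
    positivity
  filter_upwards [hbv, li_window B1 hB1 Cx hCx η1 hη10 hη11, hs1, hlogN.eventually_ge_atTop 1,
    hlogN.eventually_ge_atTop (4 * R * 2 ^ (4 * k) / (η * c1)), hcast.eventually_ge_atTop 4, hs5] with N h1 h2 h3 h4 h5 h6 h9
  intro z Y y q c hz hzN hY hq hqL hcq hy hyN P Z om hP hPq hZ
  set L := Real.log (N : ℝ) with hL
  have hL0 : 0 < L := by linarith
  have hN0 : (0 : ℝ) < N := by linarith
  have hN1 : (1 : ℝ) ≤ N := by linarith
  have hLB : 0 < L ^ B1 := Real.rpow_pos_of_pos hL0 _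
  have hz1 : 1 ≤ z := by omega
  have hz2N : z ^ 2 ≤ N := (Nat.pow_le_pow_right hz1 (by omega)).trans hzN
  obtain ⟨hmax, hwin⟩ := h2 z Y y (by omega) hz2N hY hy hyN
  have hmain := hloc b hbC z hz q c Y y hq hcq hmax P Z om hP hPq hZ
  set x1 : ℝ := ((max Y z : ℕ) : ℝ) with hx1
  set x2 : ℝ := ((Y + y : ℕ) : ℝ) with hx2
  set V : ℝ := ∏ p ∈ P, (1 - (om p : ℝ) / ((p : ℝ) - 1)) with hV
  have hφ0 : (0 : ℝ) < q.totient := by exact_mod_cast Nat.totient_pos.mpr hq
  have hlz0 : 0 ≤ Real.log (z : ℝ) := Real.log_natCast_nonneg z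
  have hlz : Real.log (z : ℝ) ≤ L := by
    apply Real.log_le_log (by exact_mod_cast hz1)
    have : z ≤ N := (Nat.le_self_pow (by omega) z).trans hz2N
    exact_mod_cast this
  have hVlow : c1 / (1 + Real.log z) ^ (4 * k) ≤ V := hlow z P om hP
  have hV0 : 0 < V := lt_of_lt_of_le (by positivity) hVlow
  have hy0 : (0 : ℝ) < y := by
    have : (0 : ℝ) < N / L ^ B1 := by positivity
    linarith
  set M : ℝ := y / L / q.totient * V with hM
  have hM0 : 0 < M := by positivity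
  -- the main term
  set T : ℝ := li x2 - li x1 with hT
  have hT1 : T ≤ 2 * (y / L) := by
    have := (abs_le.mp hwin).2
    have hyL : 0 < y / L := by positivity
    nlinarith
  have hTM : |T / q.totient * V - M| ≤ η1 * M := by
    have e1 : T / q.totient * V - M = (T - y / L) * (V / q.totient) := by
      rw [hM]
      ring
    rw [e1, abs_mul, abs_of_pos (show 0 < V / (q.totient : ℝ) by positivity)]
    calc |T - y / L| * (V / q.totient) ≤ η1 * (y / L) * (V / q.totient) :=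
          mul_le_mul_of_nonneg_right hwin (by positivity)
      _ = _ := by rw [hM]; ring
  have hTM2 : T / q.totient * V ≤ 2 * M := by
    calc T / q.totient * V ≤ 2 * (y / L) / q.totient * V := by
          apply mul_le_mul_of_nonneg_right _ hV0.le
          exact div_le_div_of_nonneg_right hT1 hφ0.le
      _ = _ := by rw [hM]; ring
  -- the errors
  have hDN : ((q * K0 * z ^ (2 * (C0 * b)) : ℕ) : ℝ) ≤ (N : ℝ) ^ ((1 : ℝ) / 8) := by
    push_cast
    have e1 : (q : ℝ) * K0 ≤ (N : ℝ) ^ ((1 : ℝ) / 16) :=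
      (mul_le_mul_of_nonneg_right hqL (Nat.cast_nonneg _)).trans h3
    have e2 : (z : ℝ) ^ (2 * (C0 * b)) ≤ (N : ℝ) ^ ((1 : ℝ) / 16) := by
      have e3 : ((z : ℝ) ^ (2 * (C0 * b))) ^ 16 ≤ N := by
        rw [← pow_mul, show 2 * (C0 * b) * 16 = 32 * (C0 * b) by ring]
        exact_mod_cast hzN
      have e4 : ((z : ℝ) ^ (2 * (C0 * b))) = (((z : ℝ) ^ (2 * (C0 * b))) ^ 16) ^ ((1 : ℝ) / 16) := by
        rw [← Real.rpow_natCast _ 16, ← Real.rpow_mul (by positivity)]
        norm_num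
      rw [e4]
      exact Real.rpow_le_rpow (by positivity) e3 (by norm_num)
    have e5 : (N : ℝ) ^ ((1 : ℝ) / 16) * (N : ℝ) ^ ((1 : ℝ) / 16) = (N : ℝ) ^ ((1 : ℝ) / 8) := by
      rw [← Real.rpow_add hN0]
      norm_num
    rw [← e5]
    exact mul_le_mul e1 e2 (by positivity) (by positivity)
  have hx1' : 2 ≤ x1 := by
    have : 2 ≤ max Y z := le_trans (by omega) (le_max_right _ _)
    rw [hx1]
    exact_mod_cast this
  have hx12 : x1 ≤ x2 := by
    rw [hx1, hx2]
    exact_mod_cast hmax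
  have hx2N : x2 ≤ (Cx + 1) * N := by
    rw [hx2]
    push_cast
    have : (y : ℝ) ≤ N := by exact_mod_cast hyN
    linarith
  have hsq : ∀ x : ℝ, 2 ≤ x → x ≤ (Cx + 1) * N →
      Real.sqrt (∑ d ∈ Icc 1 (q * K0 * z ^ (2 * (C0 * b))), (Nat.totient d : ℝ) * eM x d ^ 2) ≤ Real.sqrt C * (N / L ^ A') := by
    intro x hxa hxb
    have e1 := h1 x hxa hxb _ hDN
    refine (Real.sqrt_le_sqrt e1).trans (le_of_eq ?_)
    rw [Real.sqrt_mul hC.le]
    congr 1
    have e2 : (N : ℝ) ^ 2 / L ^ (2 * A') = (N / L ^ A') ^ 2 := by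
      rw [div_pow, ← pow_mul]
      ring
    rw [e2, Real.sqrt_sq (by positivity)]
  have hprod : Real.sqrt (∏ p ∈ P, (1 + (k : ℝ) ^ 2 / ((p : ℝ) - 1))) ≤ Real.sqrt C1 * 2 ^ k ^ 2 * L ^ k ^ 2 := by
    have e1 := hup z P (fun p hp => ⟨(hP p hp).1, (hP p hp).2.1⟩)
    have e2 : C1 * (1 + Real.log z) ^ (2 * k ^ 2) ≤ C1 * (2 * L) ^ (2 * k ^ 2) :=
      mul_le_mul_of_nonneg_left (pow_le_pow_left₀ (by linarith) (by linarith) _) hC1.le
    refine (Real.sqrt_le_sqrt (e1.trans e2)).trans (le_of_eq ?_)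
    rw [Real.sqrt_mul hC1.le, show (2 * L) ^ (2 * k ^ 2) = ((2 * L) ^ k ^ 2) ^ 2 by rw [← pow_mul]; ring,
      Real.sqrt_sq (by positivity), mul_pow]
    ring
  have hJ : (JJ z : ℝ) + 2 ≤ 5 * L := by
    have := JJ_log hz1
    linarith
  -- lower bound for `M`
  have s3 : c1 / 2 ^ (4 * k) * (N / L ^ (2 * b2 + 4 * k + 1)) ≤ M := by
    have e1 : (N : ℝ) / L ^ B1 / L ≤ y / L := div_le_div_of_nonneg_right hy hL0.le
    have e2 : (q.totient : ℝ) ≤ L ^ b2 := by
      have e3 : (q.totient : ℝ) ≤ q := by exact_mod_cast Nat.totient_le q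
      have e4 : L ^ B1 ≤ L ^ (b2 : ℝ) := Real.rpow_le_rpow_of_exponent_le h4 hb2.le
      rw [Real.rpow_natCast] at e4
      linarith
    have e5 : c1 / (2 * L) ^ (4 * k) ≤ V := by
      refine le_trans ?_ hVlow
      apply div_le_div_of_nonneg_left hc1.le (by positivity)
      exact pow_le_pow_left₀ (by linarith) (by linarith) _
    have e6 : (N : ℝ) / L ^ b2 / L ≤ y / L := by
      refine le_trans ?_ e1
      apply div_le_div_of_nonneg_right _ hL0.le
      apply div_le_div_of_nonneg_left hN0.le hLB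
      have e4 : L ^ B1 ≤ L ^ (b2 : ℝ) := Real.rpow_le_rpow_of_exponent_le h4 hb2.le
      rwa [Real.rpow_natCast] at e4
    calc c1 / 2 ^ (4 * k) * (N / L ^ (2 * b2 + 4 * k + 1)) = N / L ^ b2 / L / L ^ b2 * (c1 / (2 * L) ^ (4 * k)) := by
          rw [show 2 * b2 + 4 * k + 1 = b2 + b2 + 4 * k + 1 by ring, pow_add, pow_add, pow_add, mul_pow]
          field_simp
      _ ≤ y / L / q.totient * V := by
          apply mul_le_mul _ e5 (by positivity) (by positivity)
          apply div_le_div₀ (by positivity) e6 hφ0 e2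
  have herr : ((JJ z : ℝ) + 2) * (K0 * (Real.sqrt (∏ p ∈ P, (1 + (k : ℝ) ^ 2 / ((p : ℝ) - 1))) *
        (Real.sqrt (∑ d ∈ Icc 1 (q * K0 * z ^ (2 * (C0 * b))), (Nat.totient d : ℝ) * eM x2 d ^ 2) +
        Real.sqrt (∑ d ∈ Icc 1 (q * K0 * z ^ (2 * (C0 * b))), (Nat.totient d : ℝ) * eM x1 d ^ 2)))) ≤
      η / 4 * M := by
    have hK00 : (0 : ℝ) < K0 := by exact_mod_cast hK0
    have s1 : ((JJ z : ℝ) + 2) * (K0 * (Real.sqrt (∏ p ∈ P, (1 + (k : ℝ) ^ 2 / ((p : ℝ) - 1))) *
        (Real.sqrt (∑ d ∈ Icc 1 (q * K0 * z ^ (2 * (C0 * b))), (Nat.totient d : ℝ) * eM x2 d ^ 2) +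
        Real.sqrt (∑ d ∈ Icc 1 (q * K0 * z ^ (2 * (C0 * b))), (Nat.totient d : ℝ) * eM x1 d ^ 2)))) ≤
        5 * L * (K0 * ((Real.sqrt C1 * 2 ^ k ^ 2 * L ^ k ^ 2) * (2 * (Real.sqrt C * (N / L ^ A'))))) := by
      apply mul_le_mul hJ _ (by positivity) (by positivity)
      apply mul_le_mul_of_nonneg_left _ hK00.le
      apply mul_le_mul hprod _ (by positivity) (by positivity)
      have e1 := hsq x2 (hx1'.trans hx12) hx2N
      have e2 := hsq x1 hx1' (hx12.trans hx2N)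
      linarith
    have s2 : 5 * L * (K0 * ((Real.sqrt C1 * 2 ^ k ^ 2 * L ^ k ^ 2) * (2 * (Real.sqrt C * (N / L ^ A'))))) =
        R * (N / L ^ (2 * b2 + 4 * k + 1) / L) := by
      rw [hR, hA', show 2 * b2 + 4 * k + k ^ 2 + 3 = (2 * b2 + 4 * k + 1) + k ^ 2 + 1 + 1 by ring, pow_add, pow_add, pow_add]
      field_simp
    have s4 : R * (N / L ^ (2 * b2 + 4 * k + 1) / L) ≤ η / 4 * (c1 / 2 ^ (4 * k) * (N / L ^ (2 * b2 + 4 * k + 1))) := by
      set W : ℝ := N / L ^ (2 * b2 + 4 * k + 1) with hW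
      have hW0 : 0 < W := by positivity
      rw [mul_div_assoc', div_le_iff₀ hL0]
      have e1 : 4 * R * 2 ^ (4 * k) ≤ L * (η * c1) := by
        rwa [div_le_iff₀ (by positivity)] at h5
      have e2 : R ≤ η / 4 * (c1 / 2 ^ (4 * k)) * L := by
        have e3 : η / 4 * (c1 / 2 ^ (4 * k)) * L = L * (η * c1) / (4 * 2 ^ (4 * k)) := by
          field_simp
        rw [e3, le_div_iff₀ (by positivity)]
        linarith
      nlinarith
    calc _ ≤ _ := s1
      _ = _ := s2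
      _ ≤ _ := s4
      _ ≤ _ := mul_le_mul_of_nonneg_left s3 (by positivity)
  have hb2' : (1 / 2 : ℝ) ^ b * (T / q.totient * V) ≤ η / 4 * M := by
    calc (1 / 2 : ℝ) ^ b * (T / q.totient * V) ≤ (1 / 2 : ℝ) ^ b * (2 * M) := mul_le_mul_of_nonneg_left hTM2 (by positivity)
      _ ≤ η / 8 * (2 * M) := mul_le_mul_of_nonneg_right hbη (by positivity)
      _ = _ := by ring
  have hfin := (abs_sub_le (((Pr Y y z).filter (fun n : ℕ => n ≡ c [MOD q] ∧ ∀ p ∈ P, ¬ Z p (n % p))).card : ℝ)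
    (T / q.totient * V) M)
  have : η1 * M ≤ η / 4 * M := mul_le_mul_of_nonneg_right hη1η hM0.le
  refine ⟨?_, ?_, hM0⟩
  · refine hfin.trans ?_
    have hm2 := hmain.trans (add_le_add hb2' herr)
    have hηM : 0 < η * M := by positivity
    linarith
  · have e1 : (z : ℝ) ≤ Real.sqrt N := by
      apply Real.le_sqrt_of_sq_le
      exact_mod_cast hz2N
    exact (e1.trans h9).trans (mul_le_mul_of_nonneg_left s3 hη.le)

end Pool.Agent.H537.TP
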