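import Pool.Agent.H537.TP.BVm
import Pool.Agent.H537.TP.CntN
import Pool.Agent.H537.TR.Sieve
import Pool.Agent.H537.GP.Size

/-! The fundamental lemma for the primes: the error in terms of the errors in residue classes. -/

set_option autoImplicit false
set_option maxHeartbeats 4000000

open Finset Filter

namespace Pool.Agent.H537.TP

open Pool.Agent.W41
open Pool.Agent.Results.MP_00e23e_nt.HybridMeanValue (E primesAP li)

/-- the primes of the window -/
def Pr (Y y z : ℕ) : Finset ℕ := (Ioc Y (Y + y)).filter (fun n => n.Prime ∧ z < n)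

theorem win_count {Y y z : ℕ} (h : z ≤ Y + y) (m c : ℕ) :
    (((Pr Y y z).filter (fun n => n ≡ c [MOD m])).card : ℝ) =
      primesAP ((Y + y : ℕ) : ℝ) m c - primesAP ((max Y z : ℕ) : ℝ) m c := by
  unfold primesAP
  rw [Nat.floor_natCast, Nat.floor_natCast]
  have hd : Disjoint ((Icc 1 (max Y z)).filter (fun p => p.Prime ∧ p ≡ c [MOD m]))
      ((Pr Y y z).filter (fun n => n ≡ c [MOD m])) := by
    rw [disjoint_left]
    intro n hn hn'
    unfold Pr at hn'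
    rw [mem_filter, mem_Icc] at hn
    rw [mem_filter, mem_filter, mem_Ioc] at hn'
    have h1 := hn.1.2
    have h2 := hn'.1.1.1
    have h3 := hn'.1.2.2
    have h4 : max Y z < n := max_lt h2 h3
    omega
  have hu : (Icc 1 (Y + y)).filter (fun p => p.Prime ∧ p ≡ c [MOD m]) =
      (Icc 1 (max Y z)).filter (fun p => p.Prime ∧ p ≡ c [MOD m]) ∪
        (Pr Y y z).filter (fun n => n ≡ c [MOD m]) := by
    ext n
    unfold Pr
    rw [mem_union, mem_filter, mem_filter, mem_filter, mem_filter, mem_Icc, mem_Icc, mem_Ioc]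
    constructor
    · rintro ⟨⟨h1, h2⟩, h3, h4⟩
      by_cases h5 : n ≤ max Y z
      · exact Or.inl ⟨⟨h1, h5⟩, h3, h4⟩
      · push Not at h5
        rw [max_lt_iff] at h5
        exact Or.inr ⟨⟨⟨h5.1, h2⟩, h3, h5.2⟩, h4⟩
    · rintro (⟨⟨h1, h2⟩, h3, h4⟩ | ⟨⟨⟨h1, h2⟩, h3, h4⟩, h5⟩)
      · refine ⟨⟨h1, h2.trans ?_⟩, h3, h4⟩
        exact max_le (by omega) h
      · exact ⟨⟨h3.one_lt.le, h2⟩, h3, h5⟩
  rw [hu, card_union_of_disjoint hd]
  push_cast
  ring

theorem win_err {Y y z : ℕ} (h : z ≤ Y + y) {m c : ℕ} (hm : 1 ≤ m) (hc : c.Coprime m) :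
    |(((Pr Y y z).filter (fun n => n ≡ c [MOD m])).card : ℝ) -
      (li ((Y + y : ℕ) : ℝ) - li ((max Y z : ℕ) : ℝ)) / m.totient| ≤
      eM ((Y + y : ℕ) : ℝ) m + eM ((max Y z : ℕ) : ℝ) m := by
  rw [win_count h]
  have h1 := le_eM ((Y + y : ℕ) : ℝ) hm hc
  have h2 := le_eM ((max Y z : ℕ) : ℝ) hm hc
  have e : (primesAP ((Y + y : ℕ) : ℝ) m c : ℝ) - primesAP ((max Y z : ℕ) : ℝ) m c -
      (li ((Y + y : ℕ) : ℝ) - li ((max Y z : ℕ) : ℝ)) / m.totient =
      E ((Y + y : ℕ) : ℝ) m c - E ((max Y z : ℕ) : ℝ) m c := by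
    unfold E
    ring
  rw [e]
  exact (abs_sub _ _).trans (add_le_add h1 h2)

theorem prod_inj {P1 : Finset ℕ} (hP : ∀ p ∈ P1, p.Prime) :
    Set.InjOn (fun T : Finset ℕ => ∏ p ∈ T, p) {T : Finset ℕ | T ⊆ P1} := by
  intro S hS S' hS' h
  have hSp : ∀ p ∈ S, p.Prime := fun p hp => hP p (hS hp)
  have hSp' : ∀ p ∈ S', p.Prime := fun p hp => hP p (hS' hp)
  simp only at h
  ext p
  constructor
  · intro hp
    have h1 : p ∣ ∏ p ∈ S', p := h ▸ dvd_prod_of_mem _ hp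
    obtain ⟨p', hp', hd⟩ := (Nat.Prime.prime (hSp p hp)).exists_mem_finset_dvd h1
    rw [Nat.prime_dvd_prime_iff_eq (hSp p hp) (hSp' p' hp')] at hd
    exact hd ▸ hp'
  · intro hp
    have h1 : p ∣ ∏ p ∈ S, p := h ▸ dvd_prod_of_mem _ hp
    obtain ⟨p', hp', hd⟩ := (Nat.Prime.prime (hSp' p hp)).exists_mem_finset_dvd h1
    rw [Nat.prime_dvd_prime_iff_eq (hSp' p hp) (hSp p' hp')] at hd
    exact hd ▸ hp'

/-- Cauchy-Schwarz for the errors -/
theorem err_sum (k : ℕ) (P1 : Finset ℕ) (hP : ∀ p ∈ P1, p.Prime) (r D : ℕ) (hr : 1 ≤ r) (hrP : ∀ p ∈ P1, ¬ p ∣ r)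
    (x : ℝ) :
    ∑ T ∈ P1.powerset.filter (fun T : Finset ℕ => ∏ p ∈ T, p ≤ D), (k : ℝ) ^ T.card * eM x (r * ∏ p ∈ T, p) ≤
      Real.sqrt (∏ p ∈ P1, (1 + (k : ℝ) ^ 2 / ((p : ℝ) - 1))) *
        Real.sqrt (∑ d ∈ Icc 1 (r * D), (Nat.totient d : ℝ) * eM x d ^ 2) := by
  set F := P1.powerset.filter (fun T : Finset ℕ => ∏ p ∈ T, p ≤ D) with hF
  have hFm : ∀ T ∈ F, T ⊆ P1 ∧ ∏ p ∈ T, p ≤ D := fun T hT => by
    rw [hF, mem_filter, mem_powerset] at hT
    exact hT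
  have hφ : ∀ T ∈ F, (∏ p ∈ T, ((p : ℝ) - 1)) ≤ (Nat.totient (r * ∏ p ∈ T, p) : ℝ) := by
    intro T hT
    have hTP := (hFm T hT).1
    have hco : Nat.Coprime r (∏ p ∈ T, p) := by
      apply Nat.Coprime.prod_right
      intro p hp
      rw [Nat.coprime_comm]
      exact (Nat.Prime.coprime_iff_not_dvd (hP p (hTP hp))).mpr (hrP p (hTP hp))
    rw [Nat.totient_mul hco]
    have h1 : Nat.totient (∏ p ∈ T, p) = ∏ p ∈ T, (p - 1) := by
      clear hco
      revert hTP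
      clear hT
      induction T using Finset.induction_on with
      | empty => intro _; simp
      | insert p S hp ih =>
        intro hTP
        rw [prod_insert hp, prod_insert hp]
        have hpp := hP p (hTP (mem_insert_self _ _))
        have hS : S ⊆ P1 := fun x hx => hTP (mem_insert_of_mem hx)
        have hco : Nat.Coprime p (∏ p ∈ S, p) := by
          apply Nat.Coprime.prod_right
          intro p' hp'
          exact (Nat.coprime_primes hpp (hP p' (hS hp'))).mpr (fun h => hp (h ▸ hp'))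
        rw [Nat.totient_mul hco, Nat.totient_prime hpp, ih hS]
    rw [h1]
    push_cast
    have h2 : ∏ p ∈ T, ((p : ℝ) - 1) = ∏ p ∈ T, (((p - 1 : ℕ)) : ℝ) := by
      apply prod_congr rfl
      intro p hp
      rw [Nat.cast_sub (hP p (hTP hp)).one_lt.le, Nat.cast_one]
    rw [h2]
    have h3 : (1 : ℝ) ≤ (Nat.totient r : ℝ) := by exact_mod_cast Nat.totient_pos.mpr hr
    have h4 : (0 : ℝ) ≤ ∏ p ∈ T, (((p - 1 : ℕ)) : ℝ) := prod_nonneg fun _ _ => Nat.cast_nonneg _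
    nlinarith
  have hpos : ∀ T ∈ F, (0 : ℝ) < ∏ p ∈ T, ((p : ℝ) - 1) := by
    intro T hT
    apply prod_pos
    intro p hp
    have : (1 : ℝ) < p := by exact_mod_cast (hP p ((hFm T hT).1 hp)).one_lt
    linarith
  have hCS := Real.sum_mul_le_sqrt_mul_sqrt F
    (fun T => (k : ℝ) ^ T.card / Real.sqrt (Nat.totient (r * ∏ p ∈ T, p) : ℝ))
    (fun T => Real.sqrt (Nat.totient (r * ∏ p ∈ T, p) : ℝ) * eM x (r * ∏ p ∈ T, p))
  have e1 : ∑ T ∈ F, (k : ℝ) ^ T.card * eM x (r * ∏ p ∈ T, p) =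
      ∑ T ∈ F, (k : ℝ) ^ T.card / Real.sqrt (Nat.totient (r * ∏ p ∈ T, p) : ℝ) *
        (Real.sqrt (Nat.totient (r * ∏ p ∈ T, p) : ℝ) * eM x (r * ∏ p ∈ T, p)) := by
    apply sum_congr rfl
    intro T hT
    have h1 : (0 : ℝ) < Nat.totient (r * ∏ p ∈ T, p) := lt_of_lt_of_le (hpos T hT) (hφ T hT)
    have h2 := (Real.sqrt_pos.mpr h1).ne'
    field_simp
  rw [e1]
  refine hCS.trans ?_
  apply mul_le_mul _ _ (Real.sqrt_nonneg _) (Real.sqrt_nonneg _)
  · apply Real.sqrt_le_sqrt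
    have h2 : ∏ p ∈ P1, (1 + (k : ℝ) ^ 2 / ((p : ℝ) - 1)) = ∑ T ∈ P1.powerset, ∏ p ∈ T, ((k : ℝ) ^ 2 / ((p : ℝ) - 1)) := by
      rw [prod_one_add]
    rw [h2]
    calc ∑ T ∈ F, ((k : ℝ) ^ T.card / Real.sqrt (Nat.totient (r * ∏ p ∈ T, p) : ℝ)) ^ 2 ≤
        ∑ T ∈ F, ∏ p ∈ T, ((k : ℝ) ^ 2 / ((p : ℝ) - 1)) := by
          apply sum_le_sum
          intro T hT
          rw [div_pow, Real.sq_sqrt (Nat.cast_nonneg _), prod_div_distrib, prod_const, ← pow_mul, ← pow_mul, mul_comm 2]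
          exact div_le_div_of_nonneg_left (by positivity) (hpos T hT) (hφ T hT)
      _ ≤ _ := by
          apply sum_le_sum_of_subset_of_nonneg (filter_subset _ _)
          intro T hT _
          apply prod_nonneg
          intro p hp
          have : (1 : ℝ) < p := by exact_mod_cast (hP p (mem_powerset.mp hT hp)).one_lt
          have : (0 : ℝ) < (p : ℝ) - 1 := by linarith
          positivity
  · apply Real.sqrt_le_sqrt
    have hinj : Set.InjOn (fun T : Finset ℕ => r * ∏ p ∈ T, p) (F : Set (Finset ℕ)) := by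
      intro T hT T' hT' h
      have h1 : ∏ p ∈ T, p = ∏ p ∈ T', p := Nat.eq_of_mul_eq_mul_left (by omega) h
      exact prod_inj hP (hFm T (mem_coe.mp hT)).1 (hFm T' (mem_coe.mp hT')).1 h1
    calc ∑ T ∈ F, (Real.sqrt (Nat.totient (r * ∏ p ∈ T, p) : ℝ) * eM x (r * ∏ p ∈ T, p)) ^ 2 =
        ∑ T ∈ F, (Nat.totient (r * ∏ p ∈ T, p) : ℝ) * eM x (r * ∏ p ∈ T, p) ^ 2 := by
          apply sum_congr rfl
          intro T _
          rw [mul_pow, Real.sq_sqrt (Nat.cast_nonneg _)]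
      _ = ∑ d ∈ F.image (fun T : Finset ℕ => r * ∏ p ∈ T, p), (Nat.totient d : ℝ) * eM x d ^ 2 := by
          rw [sum_image hinj]
      _ ≤ _ := by
          apply sum_le_sum_of_subset_of_nonneg
          · intro d hd
            rw [mem_image] at hd
            obtain ⟨T, hT, rfl⟩ := hd
            rw [mem_Icc]
            have h1 : 1 ≤ ∏ p ∈ T, p := Nat.pos_of_ne_zero (prod_ne_zero_iff.2 fun p hp => (hP p ((hFm T hT).1 hp)).ne_zero)
            exact ⟨Nat.mul_pos hr h1, Nat.mul_le_mul_left _ (hFm T hT).2⟩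
          · intro d _ _
            positivity

/-- products over primes -/
theorem prod_up (k : ℕ) : ∃ C : ℝ, 0 < C ∧ ∀ (z : ℕ) (P1 : Finset ℕ), (∀ p ∈ P1, p.Prime ∧ p ≤ z) →
    ∏ p ∈ P1, (1 + (k : ℝ) ^ 2 / ((p : ℝ) - 1)) ≤ C * (1 + Real.log z) ^ (2 * k ^ 2) := by
  obtain ⟨C, hC, h⟩ := Pool.Agent.H537.GP.recip_primes
  refine ⟨Real.exp (2 * (k : ℝ) ^ 2 * C), Real.exp_pos _, fun z P1 hP => ?_⟩
  have hl : 0 ≤ Real.log (z : ℝ) := Real.log_natCast_nonneg z
  have h1 : ∀ p ∈ P1, 1 + (k : ℝ) ^ 2 / ((p : ℝ) - 1) ≤ Real.exp (2 * (k : ℝ) ^ 2 * (1 / p)) := by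
    intro p hp
    have hp2 : (2 : ℝ) ≤ p := by exact_mod_cast (hP p hp).1.two_le
    have e1 : (k : ℝ) ^ 2 / ((p : ℝ) - 1) ≤ 2 * (k : ℝ) ^ 2 * (1 / p) := by
      rw [mul_one_div, div_le_div_iff₀ (by linarith) (by linarith)]
      have : 0 ≤ (k : ℝ) ^ 2 := by positivity
      nlinarith
    have e2 := Real.add_one_le_exp (2 * (k : ℝ) ^ 2 * (1 / p))
    linarith
  calc ∏ p ∈ P1, (1 + (k : ℝ) ^ 2 / ((p : ℝ) - 1)) ≤ ∏ p ∈ P1, Real.exp (2 * (k : ℝ) ^ 2 * (1 / p)) := by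
        apply prod_le_prod _ h1
        intro p hp
        have hp2 : (2 : ℝ) ≤ p := by exact_mod_cast (hP p hp).1.two_le
        have : (0 : ℝ) < (p : ℝ) - 1 := by linarith
        positivity
    _ = Real.exp (2 * (k : ℝ) ^ 2 * ∑ p ∈ P1, (1 : ℝ) / p) := by rw [← Real.exp_sum, mul_sum]
    _ ≤ Real.exp (2 * (k : ℝ) ^ 2 * (C + Real.log (1 + Real.log z))) := by
        apply Real.exp_le_exp.mpr
        apply mul_le_mul_of_nonneg_left _ (by positivity)
        refine le_trans ?_ (h z)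
        apply sum_le_sum_of_subset_of_nonneg
        · intro p hp
          rw [mem_filter, mem_Icc]
          exact ⟨⟨(hP p hp).1.one_lt.le, (hP p hp).2⟩, (hP p hp).1⟩
        · intro _ _ _
          positivity
    _ = _ := by
        rw [mul_add, Real.exp_add]
        congr 1
        rw [mul_comm _ (Real.log _), Real.exp_mul, Real.exp_log (by linarith)]
        rw [show 2 * (k : ℝ) ^ 2 = ((2 * k ^ 2 : ℕ) : ℝ) by push_cast; ring, Real.rpow_natCast]

theorem prod_low (k : ℕ) : ∃ c : ℝ, 0 < c ∧ ∀ (z : ℕ) (P : Finset ℕ) (om : ℕ → ℕ),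
    (∀ p ∈ P, p.Prime ∧ p ≤ z ∧ om p + 1 < p ∧ om p ≤ k) →
    c / (1 + Real.log z) ^ (4 * k) ≤ ∏ p ∈ P, (1 - (om p : ℝ) / ((p : ℝ) - 1)) := by
  obtain ⟨C, hC, h⟩ := Pool.Agent.H537.GP.recip_primes
  have hfac : (0 : ℝ) < (2 * k + 2).factorial := by exact_mod_cast Nat.factorial_pos _
  refine ⟨1 / (2 * k + 2).factorial * Real.exp (-(4 * (k : ℝ) * C)), by positivity, fun z P om hP => ?_⟩
  have hl : 0 ≤ Real.log (z : ℝ) := Real.log_natCast_nonneg z
  have h1l : 0 < 1 + Real.log (z : ℝ) := by linarith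
  have hk0 : (0 : ℝ) ≤ k := Nat.cast_nonneg k
  have hpt : ∀ p ∈ P, (0 : ℝ) ≤ 1 - (om p : ℝ) / ((p : ℝ) - 1) := by
    intro p hp
    have h2 : (om p : ℝ) + 1 < p := by exact_mod_cast (hP p hp).2.2.1
    have h0 : (0 : ℝ) ≤ om p := Nat.cast_nonneg _
    rw [sub_nonneg, div_le_one (by linarith)]
    linarith
  rw [← prod_filter_mul_prod_filter_not P (fun p => p ≤ 2 * k + 2)]
  have hA : 1 / ((2 * k + 2).factorial : ℝ) ≤ ∏ p ∈ P.filter (fun p => p ≤ 2 * k + 2), (1 - (om p : ℝ) / ((p : ℝ) - 1)) := by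
    have h1 : ∏ p ∈ P.filter (fun p => p ≤ 2 * k + 2), (1 / (p : ℝ)) ≤
        ∏ p ∈ P.filter (fun p => p ≤ 2 * k + 2), (1 - (om p : ℝ) / ((p : ℝ) - 1)) := by
      apply prod_le_prod (fun _ _ => by positivity)
      intro p hp
      have h2 : (om p : ℝ) + 1 + 1 ≤ p := by exact_mod_cast (hP p (mem_filter.mp hp).1).2.2.1
      have h0 : (0 : ℝ) ≤ om p := Nat.cast_nonneg _
      have hp1 : (0 : ℝ) < (p : ℝ) - 1 := by linarith
      have e1 : (1 : ℝ) - om p / ((p : ℝ) - 1) = ((p : ℝ) - 1 - om p) / ((p : ℝ) - 1) := by field_simp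
      rw [e1, div_le_div_iff₀ (by linarith) hp1]
      nlinarith
    refine le_trans ?_ h1
    rw [prod_div_distrib, prod_const_one]
    apply one_div_le_one_div_of_le
    · exact prod_pos fun p hp => by exact_mod_cast (hP p (mem_filter.mp hp).1).1.pos
    · have h3 : ∏ p ∈ P.filter (fun p => p ≤ 2 * k + 2), p ≤ (2 * k + 2).factorial := by
        rw [← prod_range_add_one_eq_factorial]
        have h4 : ∏ i ∈ range (2 * k + 2), (i + 1) = ∏ m ∈ Icc 1 (2 * k + 2), m := by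
          rw [range_eq_Ico, prod_Ico_add' (fun m => m) 0 (2 * k + 2) 1]
          rfl
        rw [h4]
        apply prod_le_prod_of_subset_of_one_le'
        · intro p hp
          rw [mem_filter] at hp
          exact mem_Icc.mpr ⟨(hP p hp.1).1.one_lt.le, hp.2⟩
        · intro m hm _
          exact (mem_Icc.mp hm).1
      have h5 : ((∏ p ∈ P.filter (fun p => p ≤ 2 * k + 2), p : ℕ) : ℝ) ≤ ((2 * k + 2).factorial : ℝ) := Nat.cast_le.mpr h3
      rwa [Nat.cast_prod] at h5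
  have hB : Real.exp (-(4 * (k : ℝ) * C)) / (1 + Real.log z) ^ (4 * k) ≤
      ∏ p ∈ P.filter (fun p => ¬ p ≤ 2 * k + 2), (1 - (om p : ℝ) / ((p : ℝ) - 1)) := by
    have h1 : ∏ p ∈ P.filter (fun p => ¬ p ≤ 2 * k + 2), Real.exp (-(4 * (k : ℝ) * (1 / p))) ≤
        ∏ p ∈ P.filter (fun p => ¬ p ≤ 2 * k + 2), (1 - (om p : ℝ) / ((p : ℝ) - 1)) := by
      apply prod_le_prod (fun _ _ => (Real.exp_pos _).le)
      intro p hp
      have hp' := mem_filter.mp hp
      have h2 : (om p : ℝ) ≤ k := by exact_mod_cast (hP p hp'.1).2.2.2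
      have h3 : 2 * (k : ℝ) + 3 ≤ p := by
        have : 2 * k + 3 ≤ p := by omega
        exact_mod_cast this
      have hp1 : (0 : ℝ) < (p : ℝ) - 1 := by linarith
      have hp0 : (0 : ℝ) < p := by linarith
      have e1 : (om p : ℝ) / ((p : ℝ) - 1) ≤ 2 * k * (1 / p) := by
        rw [mul_one_div, div_le_div_iff₀ hp1 hp0]
        nlinarith
      have e2 : 2 * (k : ℝ) * (1 / p) ≤ 1 - 0 := by
        rw [mul_one_div, sub_zero, div_le_one hp0]
        linarith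
      set t := 2 * (k : ℝ) * (1 / p) with ht
      have ht0 : 0 ≤ t := by positivity
      -- `exp(-2t) ≤ 1 - t` for `0 ≤ t ≤ 1/2`... here `t < 1`
      have e3 : Real.exp (-(2 * t)) ≤ 1 - (om p : ℝ) / ((p : ℝ) - 1) := by
        -- use `om/(p-1) ≤ k/(p-1) ≤ 1/2`
        have e4 : (om p : ℝ) / ((p : ℝ) - 1) ≤ 1 / 2 := by
          rw [div_le_div_iff₀ hp1 (by norm_num)]
          linarith
        set s := (om p : ℝ) / ((p : ℝ) - 1) with hs
        have hs0 : 0 ≤ s := div_nonneg (Nat.cast_nonneg _) hp1.le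
        have e5 : 1 ≤ (1 - s) * (1 + 2 * s) := by nlinarith
        have e6 : 1 + 2 * s ≤ Real.exp (2 * s) := by
          have := Real.add_one_le_exp (2 * s)
          linarith
        have e7 : 1 ≤ (1 - s) * Real.exp (2 * s) := e5.trans (mul_le_mul_of_nonneg_left e6 (by linarith))
        have e8 : Real.exp (-(2 * s)) ≤ 1 - s := by
          rw [Real.exp_neg, inv_le_iff_one_le_mul₀ (Real.exp_pos _)]
          exact e7
        refine le_trans ?_ e8
        apply Real.exp_le_exp.mpr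
        linarith
      refine le_trans (le_of_eq ?_) e3
      congr 1
      rw [ht]
      ring
    refine le_trans ?_ h1
    have e1 : ∏ p ∈ P.filter (fun p => ¬ p ≤ 2 * k + 2), Real.exp (-(4 * (k : ℝ) * (1 / p))) =
        Real.exp (-(4 * (k : ℝ) * ∑ p ∈ P.filter (fun p => ¬ p ≤ 2 * k + 2), (1 : ℝ) / p)) := by
      rw [← Real.exp_sum, mul_sum, ← sum_neg_distrib]
    rw [e1]
    have e2 : ∑ p ∈ P.filter (fun p => ¬ p ≤ 2 * k + 2), (1 : ℝ) / p ≤ C + Real.log (1 + Real.log z) := by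
      refine le_trans ?_ (h z)
      apply sum_le_sum_of_subset_of_nonneg
      · intro p hp
        have hp' := (mem_filter.mp hp).1
        rw [mem_filter, mem_Icc]
        exact ⟨⟨(hP p hp').1.one_lt.le, (hP p hp').2.1⟩, (hP p hp').1⟩
      · intro _ _ _
        positivity
    have e3 : Real.exp (-(4 * (k : ℝ) * C)) / (1 + Real.log z) ^ (4 * k) = Real.exp (-(4 * (k : ℝ) * (C + Real.log (1 + Real.log z)))) := by
      rw [mul_add, neg_add, Real.exp_add, div_eq_mul_inv]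
      congr 1
      rw [Real.exp_neg]
      congr 1
      rw [mul_comm _ (Real.log _), Real.exp_mul, Real.exp_log h1l]
      rw [show 4 * (k : ℝ) = ((4 * k : ℕ) : ℝ) by push_cast; ring, Real.rpow_natCast]
    rw [e3]
    apply Real.exp_le_exp.mpr
    apply neg_le_neg
    exact mul_le_mul_of_nonneg_left e2 (by positivity)
  calc 1 / ((2 * k + 2).factorial : ℝ) * Real.exp (-(4 * (k : ℝ) * C)) / (1 + Real.log z) ^ (4 * k) =
      1 / ((2 * k + 2).factorial : ℝ) * (Real.exp (-(4 * (k : ℝ) * C)) / (1 + Real.log z) ^ (4 * k)) := by ring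
    _ ≤ _ := mul_le_mul hA hB (by positivity) (prod_nonneg fun p hp => hpt p (mem_filter.mp hp).1)

end Pool.Agent.H537.TP
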