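import Pool.Agent.H537.TP.Loc

/-! The fundamental lemma for the primes. -/

set_option autoImplicit false
set_option maxHeartbeats 4000000

open Finset Filter

namespace Pool.Agent.H537.TP

open Pool.Agent.W41
open Pool.Agent.Results.MP_00e23e_nt.HybridMeanValue (E primesAP li)

open Classical in
theorem loc_sieve (k : ℕ) : ∃ C0 K0 : ℕ, 1 ≤ C0 ∧ 1 ≤ K0 ∧ ∀ (b : ℕ), C0 ≤ b → ∀ (z : ℕ), 3 ≤ z → ∀ (q c Y y : ℕ),
    1 ≤ q → c.Coprime q → max Y z ≤ Y + y → ∀ (P : Finset ℕ) (Z : ℕ → ℕ → Prop) (om : ℕ → ℕ),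
    (∀ p ∈ P, p.Prime ∧ p ≤ z ∧ om p + 1 < p ∧ om p ≤ k) → (∀ p ∈ P, ¬ p ∣ q) →
    (∀ p ∈ P, ((range p).filter (fun a => a ≠ 0 ∧ Z p a)).card = om p) →
    |(((Pr Y y z).filter (fun n : ℕ => n ≡ c [MOD q] ∧ ∀ p ∈ P, ¬ Z p (n % p))).card : ℝ) -
      (li ((Y + y : ℕ) : ℝ) - li ((max Y z : ℕ) : ℝ)) / q.totient * ∏ p ∈ P, (1 - (om p : ℝ) / ((p : ℝ) - 1))| ≤
      (1 / 2 : ℝ) ^ b * ((li ((Y + y : ℕ) : ℝ) - li ((max Y z : ℕ) : ℝ)) / q.totient *
        ∏ p ∈ P, (1 - (om p : ℝ) / ((p : ℝ) - 1))) +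
      ((JJ z : ℝ) + 2) * (K0 * (Real.sqrt (∏ p ∈ P, (1 + (k : ℝ) ^ 2 / ((p : ℝ) - 1))) *
        (Real.sqrt (∑ d ∈ Icc 1 (q * K0 * z ^ (2 * (C0 * b))), (Nat.totient d : ℝ) * eM ((Y + y : ℕ) : ℝ) d ^ 2) +
        Real.sqrt (∑ d ∈ Icc 1 (q * K0 * z ^ (2 * (C0 * b))), (Nat.totient d : ℝ) * eM ((max Y z : ℕ) : ℝ) d ^ 2)))) := by
  obtain ⟨C0, hC0, hFL⟩ := Pool.Agent.H20R2.fLem k
  set z0 := C0 + 1 with hz0
  set K0 : ℕ := ∏ p ∈ (Icc 1 z0).filter Nat.Prime, p with hK0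
  have hK01 : 1 ≤ K0 := Nat.pos_of_ne_zero (prod_ne_zero_iff.2 fun p hp => (mem_filter.1 hp).2.ne_zero)
  refine ⟨C0, K0, hC0, hK01, fun b hbC z hz q c Y y hq hcq hYz P Z om hP hPq hZ => ?_⟩
  have hPp : ∀ p ∈ P, p.Prime := fun p hp => (hP p hp).1
  have hq0 : (0 : ℝ) < q.totient := by exact_mod_cast Nat.totient_pos.mpr hq
  set x1 : ℝ := ((max Y z : ℕ) : ℝ) with hx1
  set x2 : ℝ := ((Y + y : ℕ) : ℝ) with hx2
  have hx12 : x1 ≤ x2 := by
    rw [hx1, hx2]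
    exact_mod_cast hYz
  have hx1' : 2 ≤ x1 := by
    have : 2 ≤ max Y z := le_trans (by omega) (le_max_right _ _)
    rw [hx1]
    exact_mod_cast this
  have hL0 : 0 ≤ li x2 - li x1 := by
    have h1 := le_li_sub hx1' hx12
    have : 0 ≤ (x2 - x1) / Real.log x2 := div_nonneg (by linarith) (Real.log_nonneg (by linarith))
    linarith
  have hzY : z ≤ Y + y := (le_max_right _ _).trans hYz
  set J := JJ z with hJ
  set YY : ℕ := 2 ^ 2 ^ J with hYY
  have hyY : z < YY := JJ_lt z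
  have hYy : YY ≤ z ^ 2 := JJ_le z (by omega)
  set D : ℕ := YY ^ (C0 * b) with hD
  have hDz : D ≤ z ^ (2 * (C0 * b)) := by
    rw [hD, pow_mul z 2 (C0 * b)]
    exact Nat.pow_le_pow_left hYy _
  set P0 : Finset ℕ := P.filter (fun p => p ≤ z0) with hP0
  set P1 : Finset ℕ := P.filter (fun p => ¬ p ≤ z0) with hP1
  have hPu : P = P0 ∪ P1 := (filter_union_filter_not_eq _ _).symm
  have hdisj : Disjoint P0 P1 := disjoint_filter_filter_not _ _ _
  have hpm1 : ∀ p ∈ P, (0 : ℝ) < (p : ℝ) - 1 := by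
    intro p hp
    have : (1 : ℝ) < p := by exact_mod_cast (hP p hp).1.one_lt
    linarith
  have hfac : ∀ p ∈ P, 0 ≤ 1 - (om p : ℝ) / ((p : ℝ) - 1) := by
    intro p hp
    have h2 : (om p : ℝ) + 1 < p := by exact_mod_cast (hP p hp).2.2.1
    rw [sub_nonneg, div_le_one (hpm1 p hp)]
    linarith
  have hPp1 : ∀ p ∈ P1, p.Prime ∧ z0 < p ∧ p ≤ YY := by
    intro p hp
    rw [hP1, mem_filter] at hp
    exact ⟨hPp p hp.1, by omega, (((hP p hp.1).2.1).trans hyY.le)⟩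
  have hPp0 : ∀ p ∈ P0, p.Prime ∧ p ≤ z0 := by
    intro p hp
    rw [hP0, mem_filter] at hp
    exact ⟨hPp p hp.1, hp.2⟩
  have hP0P : ∀ p ∈ P0, p ∈ P := fun p hp => (mem_filter.mp hp).1
  have hP1P : ∀ p ∈ P1, p ∈ P := fun p hp => (mem_filter.mp hp).1
  set V0 : ℝ := ∏ p ∈ P0, (1 - (om p : ℝ) / ((p : ℝ) - 1)) with hV0
  set V : ℝ := ∏ p ∈ P, (1 - (om p : ℝ) / ((p : ℝ) - 1)) with hVd
  have hV : V = V0 * ∏ p ∈ P1, (1 - (om p : ℝ) / ((p : ℝ) - 1)) := by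
    rw [hVd, hV0, ← prod_union hdisj, ← hPu]
  have hV00 : 0 ≤ V0 := prod_nonneg fun p hp => hfac p (hP0P p hp)
  set A0 : ℝ := (li x2 - li x1) / q.totient * V0 with hA0
  have hA00 : 0 ≤ A0 := by positivity
  set r : ℕ := q * ∏ p ∈ P0, p with hr
  have hr1 : 1 ≤ r := Nat.mul_pos hq (Nat.pos_of_ne_zero (prod_ne_zero_iff.2 fun p hp => (hPp0 p hp).1.ne_zero))
  have hP0K : ∏ p ∈ P0, p ≤ K0 := by
    rw [hK0]
    apply prod_le_prod_of_subset_of_one_le'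
    · intro p hp
      rw [mem_filter, mem_Icc]
      exact ⟨⟨(hPp0 p hp).1.one_lt.le, (hPp0 p hp).2⟩, (hPp0 p hp).1⟩
    · intro p hp _
      exact (mem_filter.1 hp).2.one_lt.le
  have hrK : r ≤ q * K0 := Nat.mul_le_mul_left _ hP0K
  have hrP : ∀ p ∈ P1, ¬ p ∣ r := by
    intro p hp hd
    have hpp := (hPp1 p hp).1
    rcases (Nat.Prime.dvd_mul hpp).1 hd with h | h
    · exact hPq p (hP1P p hp) h
    · obtain ⟨p', hp', hd'⟩ := (Nat.Prime.prime hpp).exists_mem_finset_dvd h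
      rw [Nat.prime_dvd_prime_iff_eq hpp (hPp0 p' hp').1] at hd'
      have h1 := (hPp0 p' hp').2
      have h2 := (hPp1 p hp).2.1
      omega
  have key := hFL b J z0 P1 (fun p => (om p : ℝ) / ((p : ℝ) - 1)) hbC (by omega) hPp1 (fun p hp => by
      have h1 := hpm1 p (hP1P p hp)
      refine ⟨by positivity, ?_⟩
      have h3 : (om p : ℝ) ≤ k := by exact_mod_cast (hP p (hP1P p hp)).2.2.2
      exact div_le_div_of_nonneg_right h3 h1.le)
    ((Pr Y y z).filter (fun n => n ≡ c [MOD q] ∧ ∀ p ∈ P0, ¬ Z p (n % p))) (fun _ => (1 : ℝ)) (fun p n => Z p (n % p)) A0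
    (fun T => (K0 : ℝ) * ((k : ℝ) ^ T.card * eM x2 (r * ∏ p ∈ T, p) + (k : ℝ) ^ T.card * eM x1 (r * ∏ p ∈ T, p)))
    (fun _ _ => zero_le_one) hA00 (by
      intro T hT hTD
      have hTp : ∀ p ∈ T, p.Prime := fun p hp => (hPp1 p (hT hp)).1
      have hdT : Disjoint P0 T := disjoint_of_subset_right hT hdisj
      have hTz : ∀ p ∈ T, ¬ p ≤ z0 := fun p hp => by have := (hPp1 p (hT hp)).2.1; omega
      have hm : q * ∏ p ∈ P0 ∪ T, p = r * ∏ p ∈ T, p := by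
        rw [prod_union hdT, hr, mul_assoc]
      have hm1 : 1 ≤ r * ∏ p ∈ T, p := Nat.mul_pos hr1 (Nat.pos_of_ne_zero (prod_ne_zero_iff.2 fun p hp => (hTp p hp).ne_zero))
      have h3 := count_sysN (fun p a => if p ≤ z0 then (a ≠ 0 ∧ ¬ Z p a) else (a ≠ 0 ∧ Z p a)) (Pr Y y z)
        (li x2 - li x1) (eM x2 (r * ∏ p ∈ T, p) + eM x1 (r * ∏ p ∈ T, p)) (P0 ∪ T) (fun p hp => by
          rcases mem_union.1 hp with h | h
          · exact (hPp0 p h).1
          · exact hTp p h) q hq (fun p hp => by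
          rcases mem_union.1 hp with h | h
          · exact hPq p (hP0P p h)
          · exact hPq p (hP1P p (hT h))) (fun p _ => by
          split_ifs <;> simp) (fun c' hc' => by
          rw [hm] at hc' ⊢
          exact win_err hzY hm1 hc') c hcq
      have hne0 : ∀ p ∈ P, ((range p).filter (fun a => a ≠ 0)).card = p - 1 := by
        intro p hp
        rw [filter_ne', card_erase_of_mem (mem_range.mpr (hPp p hp).pos), card_range]
      have c1 : ∀ p ∈ P0, (((range p).filter (fun a => if p ≤ z0 then (a ≠ 0 ∧ ¬ Z p a) else (a ≠ 0 ∧ Z p a))).card : ℝ) = p - 1 - om p := by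
        intro p hp
        simp only [if_pos (hPp0 p hp).2]
        have h4 := card_filter_add_card_filter_not (s := (range p).filter (fun a => a ≠ 0)) (Z p)
        rw [hne0 p (hP0P p hp), filter_filter, filter_filter, hZ p (hP0P p hp)] at h4
        have h7 : (om p : ℝ) + (((range p).filter (fun a => a ≠ 0 ∧ ¬ Z p a)).card : ℝ) = ((p - 1 : ℕ) : ℝ) := by exact_mod_cast h4
        rw [Nat.cast_sub (hPp0 p hp).1.one_lt.le, Nat.cast_one] at h7
        linarith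
      have c2 : ∀ p ∈ T, (((range p).filter (fun a => if p ≤ z0 then (a ≠ 0 ∧ ¬ Z p a) else (a ≠ 0 ∧ Z p a))).card : ℝ) = om p := by
        intro p hp
        simp only [if_neg (hTz p hp)]
        have h6 := hZ p (hP1P p (hT hp))
        exact_mod_cast h6
      rw [prod_union hdT, prod_union hdT] at h3
      have e1 : ∏ p ∈ P0, ((((range p).filter (fun a => if p ≤ z0 then (a ≠ 0 ∧ ¬ Z p a) else (a ≠ 0 ∧ Z p a))).card : ℝ) / (p - 1)) = V0 := by
        rw [hV0]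
        apply prod_congr rfl
        intro p hp
        rw [c1 p hp]
        have hp0 := hpm1 p (hP0P p hp)
        field_simp
      have e2 : ∏ p ∈ T, ((((range p).filter (fun a => if p ≤ z0 then (a ≠ 0 ∧ ¬ Z p a) else (a ≠ 0 ∧ Z p a))).card : ℝ) / (p - 1)) =
          ∏ p ∈ T, ((om p : ℝ) / ((p : ℝ) - 1)) := by
        apply prod_congr rfl
        intro p hp
        rw [c2 p hp]
      have e3 : ∏ p ∈ P0, (((range p).filter (fun a => if p ≤ z0 then (a ≠ 0 ∧ ¬ Z p a) else (a ≠ 0 ∧ Z p a))).card : ℝ) ≤ K0 := by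
        have h5 : ∏ p ∈ P0, (((range p).filter (fun a => if p ≤ z0 then (a ≠ 0 ∧ ¬ Z p a) else (a ≠ 0 ∧ Z p a))).card : ℝ) ≤ ∏ p ∈ P0, (p : ℝ) := by
          apply prod_le_prod (fun _ _ => Nat.cast_nonneg _)
          intro p hp
          rw [c1 p hp]
          have : (0 : ℝ) ≤ om p := Nat.cast_nonneg _
          linarith
        refine h5.trans ?_
        have h6 : ((∏ p ∈ P0, p : ℕ) : ℝ) ≤ ((K0 : ℕ) : ℝ) := Nat.cast_le.mpr hP0K
        rwa [Nat.cast_prod] at h6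
      have e4 : ∏ p ∈ T, (((range p).filter (fun a => if p ≤ z0 then (a ≠ 0 ∧ ¬ Z p a) else (a ≠ 0 ∧ Z p a))).card : ℝ) ≤ (k : ℝ) ^ T.card := by
        rw [← prod_const]
        apply prod_le_prod (fun _ _ => Nat.cast_nonneg _)
        intro p hp
        rw [c2 p hp]
        exact_mod_cast (hP p (hP1P p (hT hp))).2.2.2
      rw [e1, e2] at h3
      have e5 : ∑ m ∈ ((Pr Y y z).filter (fun n => n ≡ c [MOD q] ∧ ∀ p ∈ P0, ¬ Z p (n % p))).filter (fun m => ∀ p ∈ T, Z p (m % p)), (1 : ℝ) =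
          (((Pr Y y z).filter (fun n => n ≡ c [MOD q] ∧ ∀ p ∈ P0 ∪ T, if p ≤ z0 then (n % p ≠ 0 ∧ ¬ Z p (n % p)) else (n % p ≠ 0 ∧ Z p (n % p)))).card : ℝ) := by
        rw [sum_const, nsmul_eq_mul, mul_one, filter_filter]
        congr 2
        apply filter_congr
        intro n hn
        have hnz : ∀ p ∈ P, n % p ≠ 0 := by
          intro p hp h0
          unfold Pr at hn
          rw [mem_filter] at hn
          have h8 : p ∣ n := Nat.dvd_of_mod_eq_zero h0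
          have h9 := (Nat.prime_dvd_prime_iff_eq (hPp p hp) hn.2.1).mp h8
          have h10 := (hP p hp).2.1
          omega
        constructor
        · rintro ⟨⟨h5, h7⟩, h6⟩
          refine ⟨h5, fun p hp => ?_⟩
          rcases mem_union.1 hp with h | h
          · rw [if_pos (hPp0 p h).2]
            exact ⟨hnz p (hP0P p h), h7 p h⟩
          · rw [if_neg (hTz p h)]
            exact ⟨hnz p (hP1P p (hT h)), h6 p h⟩
        · rintro ⟨h4, h5⟩
          refine ⟨⟨h4, ?_⟩, ?_⟩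
          · intro p hp
            have h8 := h5 p (mem_union_left _ hp)
            rw [if_pos (hPp0 p hp).2] at h8
            exact h8.2
          · intro p hp
            have h8 := h5 p (mem_union_right _ hp)
            rw [if_neg (hTz p hp)] at h8
            exact h8.2
      have e6 : (∏ p ∈ P0, (((range p).filter (fun a => if p ≤ z0 then (a ≠ 0 ∧ ¬ Z p a) else (a ≠ 0 ∧ Z p a))).card : ℝ)) *
          (∏ p ∈ T, (((range p).filter (fun a => if p ≤ z0 then (a ≠ 0 ∧ ¬ Z p a) else (a ≠ 0 ∧ Z p a))).card : ℝ)) *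
          (eM x2 (r * ∏ p ∈ T, p) + eM x1 (r * ∏ p ∈ T, p)) ≤
          (K0 : ℝ) * (k : ℝ) ^ T.card * (eM x2 (r * ∏ p ∈ T, p) + eM x1 (r * ∏ p ∈ T, p)) := by
        apply mul_le_mul_of_nonneg_right _ (add_nonneg (eM_nonneg _ _) (eM_nonneg _ _))
        exact mul_le_mul e3 e4 (prod_nonneg fun p _ => Nat.cast_nonneg _) (Nat.cast_nonneg K0)
      have h6 := h3.trans e6
      rw [← e5] at h6
      rw [hA0, mul_assoc]
      refine le_trans (le_of_eq ?_) (h6.trans (le_of_eq (by ring)))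
      congr 2)
  have f1 : ∑ m ∈ ((Pr Y y z).filter (fun n => n ≡ c [MOD q] ∧ ∀ p ∈ P0, ¬ Z p (n % p))).filter (fun m => ∀ p ∈ P1, ¬ Z p (m % p)), (1 : ℝ) =
      ((((Pr Y y z).filter (fun n : ℕ => n ≡ c [MOD q] ∧ ∀ p ∈ P, ¬ Z p (n % p))).card : ℕ) : ℝ) := by
    rw [sum_const, nsmul_eq_mul, mul_one, filter_filter]
    congr 2
    apply filter_congr
    intro n _
    conv_rhs => rw [hPu]
    constructor
    · rintro ⟨⟨h4, h5⟩, h6⟩
      refine ⟨h4, fun p hp => ?_⟩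
      rcases mem_union.1 hp with h | h
      · exact h5 p h
      · exact h6 p h
    · intro h
      exact ⟨⟨h.1, fun p hp => h.2 p (mem_union_left _ hp)⟩, fun p hp => h.2 p (mem_union_right _ hp)⟩
  have f2 : A0 * ∏ p ∈ P1, (1 - (om p : ℝ) / ((p : ℝ) - 1)) = (li x2 - li x1) / q.totient * V := by
    rw [hV, hA0]; ring
  rw [f2] at key
  have key2 : |((((Pr Y y z).filter (fun n : ℕ => n ≡ c [MOD q] ∧ ∀ p ∈ P, ¬ Z p (n % p))).card : ℕ) : ℝ) - (li x2 - li x1) / q.totient * V| ≤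
      (1 / 2 : ℝ) ^ b * ((li x2 - li x1) / q.totient * V) + ((J : ℝ) + 2) *
        ∑ T ∈ P1.powerset.filter (fun T : Finset ℕ => ∏ p ∈ T, p ≤ (2 ^ 2 ^ J) ^ (C0 * b)),
          (K0 : ℝ) * ((k : ℝ) ^ T.card * eM x2 (r * ∏ p ∈ T, p) + (k : ℝ) ^ T.card * eM x1 (r * ∏ p ∈ T, p)) := by
    rw [← f1]
    exact key
  refine key2.trans ?_
  have hP1p : ∀ p ∈ P1, p.Prime := fun p hp => (hPp1 p hp).1
  have herr : ∀ x : ℝ, ∑ T ∈ P1.powerset.filter (fun T : Finset ℕ => ∏ p ∈ T, p ≤ D), (k : ℝ) ^ T.card * eM x (r * ∏ p ∈ T, p) ≤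
      Real.sqrt (∏ p ∈ P, (1 + (k : ℝ) ^ 2 / ((p : ℝ) - 1))) *
        Real.sqrt (∑ d ∈ Icc 1 (q * K0 * z ^ (2 * (C0 * b))), (Nat.totient d : ℝ) * eM x d ^ 2) := by
    intro x
    refine (err_sum k P1 hP1p r D hr1 hrP x).trans ?_
    apply mul_le_mul _ _ (Real.sqrt_nonneg _) (Real.sqrt_nonneg _)
    · apply Real.sqrt_le_sqrt
      rw [hPu, prod_union hdisj]
      have h1 : (1 : ℝ) ≤ ∏ p ∈ P0, (1 + (k : ℝ) ^ 2 / ((p : ℝ) - 1)) := by
        apply one_le_prod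
        intro p hp
        have := hpm1 p (hP0P p hp)
        have h2 : 0 ≤ (k : ℝ) ^ 2 / ((p : ℝ) - 1) := by positivity
        linarith
      have h3 : (0 : ℝ) ≤ ∏ p ∈ P1, (1 + (k : ℝ) ^ 2 / ((p : ℝ) - 1)) := by
        apply prod_nonneg
        intro p hp
        have := hpm1 p (hP1P p hp)
        positivity
      nlinarith
    · apply Real.sqrt_le_sqrt
      apply sum_le_sum_of_subset_of_nonneg
      · intro d hd
        rw [mem_Icc] at hd ⊢
        exact ⟨hd.1, hd.2.trans (Nat.mul_le_mul hrK hDz)⟩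
      · intro d _ _
        positivity
  have hfin : ∑ T ∈ P1.powerset.filter (fun T : Finset ℕ => ∏ p ∈ T, p ≤ (2 ^ 2 ^ J) ^ (C0 * b)),
          (K0 : ℝ) * ((k : ℝ) ^ T.card * eM x2 (r * ∏ p ∈ T, p) + (k : ℝ) ^ T.card * eM x1 (r * ∏ p ∈ T, p)) ≤
      K0 * (Real.sqrt (∏ p ∈ P, (1 + (k : ℝ) ^ 2 / ((p : ℝ) - 1))) *
        (Real.sqrt (∑ d ∈ Icc 1 (q * K0 * z ^ (2 * (C0 * b))), (Nat.totient d : ℝ) * eM x2 d ^ 2) +
        Real.sqrt (∑ d ∈ Icc 1 (q * K0 * z ^ (2 * (C0 * b))), (Nat.totient d : ℝ) * eM x1 d ^ 2))) := by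
    rw [← mul_sum, sum_add_distrib]
    apply mul_le_mul_of_nonneg_left _ (Nat.cast_nonneg _)
    rw [mul_add]
    exact add_le_add (herr x2) (herr x1)
  have hJ0 : (0 : ℝ) ≤ (J : ℝ) + 2 := by positivity
  have := mul_le_mul_of_nonneg_left hfin hJ0
  linarith

end Pool.Agent.H537.TP
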